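import Mathlib

/-!
# A mountain pass lemma for connected compact spaces

Purely topological part of the proof that clear visibility of locally non-convex points
decides starshapedness.
-/

namespace Pool.Agent.Zk79.StarLNC

open Set Topology Filter

section Top

variable {X : Type*} [TopologicalSpace X]

/-- A partition of an open sublevel set into two open pieces, extending a given one. -/
structure OG (f : X → ℝ) (t0 : ℝ) (A B : Set X) (s : ℝ) (U V : Set X) : Prop where
  hU : IsOpen U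
  hV : IsOpen V
  hd : Disjoint U V
  hu : U ∪ V = {x | f x < s}
  hA : ∀ x ∈ A, f x ≤ t0 → x ∈ U
  hB : ∀ x ∈ B, f x ≤ t0 → x ∈ V

lemma OG.cross [CompactSpace X] {f : X → ℝ} (hf : Continuous f) {t0 : ℝ} {A B : Set X}
    (hcov : ∀ x, f x ≤ t0 → x ∈ A ∨ x ∈ B)
    (hmin : ∀ x, t0 < f x → ¬ IsLocalMin f x)
    {s s' : ℝ} {U V U' V' : Set X} (h : OG f t0 A B s U V) (h' : OG f t0 A B s' U' V') :
    Disjoint U V' := by
  rw [Set.disjoint_left]
  intro x hxU hxV'
  have hxs : f x < s := by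
    have h1 : x ∈ U ∪ V := Or.inl hxU
    rw [h.hu] at h1; exact h1
  have hxs' : f x < s' := by
    have h1 : x ∈ U' ∪ V' := Or.inr hxV'
    rw [h'.hu] at h1; exact h1
  have hKc : IsCompact ({w | f w ≤ f x} ∩ (V ∪ U')ᶜ) := by
    apply IsClosed.isCompact
    exact (isClosed_le hf continuous_const).inter (h.hV.union h'.hU).isClosed_compl
  have hxK : x ∈ ({w | f w ≤ f x} ∩ (V ∪ U')ᶜ) := by
    refine ⟨le_refl (f x), ?_⟩
    rintro (hv | hu)
    · exact Set.disjoint_left.1 h.hd hxU hv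
    · exact Set.disjoint_left.1 h'.hd hu hxV'
  obtain ⟨x', hx'K, hx'min⟩ := hKc.exists_isMinOn ⟨x, hxK⟩ hf.continuousOn
  have hx'le : f x' ≤ f x := hx'K.1
  have hx'UV : x' ∈ U ∩ V' := by
    have h1 : x' ∈ U ∪ V := by rw [h.hu]; exact lt_of_le_of_lt hx'le hxs
    have h2 : x' ∈ U' ∪ V' := by rw [h'.hu]; exact lt_of_le_of_lt hx'le hxs'
    have h3 : x' ∉ V ∪ U' := hx'K.2
    rcases h1 with h1 | h1
    · rcases h2 with h2 | h2
      · exact absurd (Or.inr h2) h3
      · exact ⟨h1, h2⟩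
    · exact absurd (Or.inl h1) h3
  have hloc : IsLocalMin f x' := by
    filter_upwards [(h.hU.inter h'.hV).mem_nhds hx'UV] with w hw
    by_cases hwx : f w ≤ f x
    · apply hx'min
      refine ⟨hwx, ?_⟩
      rintro (hv | hu)
      · exact Set.disjoint_left.1 h.hd hw.1 hv
      · exact Set.disjoint_left.1 h'.hd hu hw.2
    · exact le_trans hx'le (le_of_lt (not_le.1 hwx))
  have hle : f x' ≤ t0 := by
    by_contra hcon
    exact hmin x' (not_le.1 hcon) hloc
  rcases hcov x' hle with ha | hb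
  · exact Set.disjoint_left.1 h'.hd (h'.hA x' ha hle) hx'UV.2
  · exact Set.disjoint_left.1 h.hd hx'UV.1 (h.hB x' hb hle)

/-- The mountain pass lemma: if `f` on a compact connected Hausdorff space has no local minimum
above level `t0`, and a sublevel set `{f < t1}` with `t1 > t0` splits into two open sets that both
meet `{f ≤ t0}`, then some sublevel set `{f < s}`, `s > t0`, splits into two open sets whose
closures meet. -/
lemma mountain_pass [CompactSpace X] [T2Space X] [PreconnectedSpace X]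
    {f : X → ℝ} (hf : Continuous f) {t0 t1 : ℝ} (h01 : t0 < t1)
    {A B : Set X} (hA : IsOpen A) (hB : IsOpen B) (hAB : Disjoint A B)
    (hu : A ∪ B = {x | f x < t1}) (hA0 : ∃ a ∈ A, f a ≤ t0) (hB0 : ∃ b ∈ B, f b ≤ t0)
    (hmin : ∀ x, t0 < f x → ¬ IsLocalMin f x) :
    ∃ s, t0 < s ∧ ∃ U V : Set X, IsOpen U ∧ IsOpen V ∧ Disjoint U V ∧ U ∪ V = {x | f x < s} ∧
      ∃ z, z ∈ closure U ∧ z ∈ closure V := by
  classical
  have hcov : ∀ x, f x ≤ t0 → x ∈ A ∨ x ∈ B := by
    intro x hx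
    have h1 : x ∈ A ∪ B := by rw [hu]; exact lt_of_le_of_lt hx h01
    exact h1
  -- the set of levels at which a partition exists
  let S : Set ℝ := {s | ∃ U V, OG f t0 A B s U V}
  have ht1 : t1 ∈ S := ⟨A, B, hA, hB, hAB, hu, fun x hx _ => hx, fun x hx _ => hx⟩
  obtain ⟨M, hM⟩ : ∃ M, ∀ x, f x ≤ M := by
    obtain ⟨M, hM⟩ := (isCompact_range hf).bddAbove
    exact ⟨M, fun x => hM ⟨x, rfl⟩⟩
  have hbdd : BddAbove S := by
    refine ⟨M, ?_⟩
    rintro s ⟨U, V, h⟩
    by_contra hcon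
    have hMs : M < s := not_le.1 hcon
    have huniv : U ∪ V = univ := by
      rw [h.hu]
      ext x
      constructor
      · intro _; exact mem_univ _
      · intro _; exact lt_of_le_of_lt (hM x) hMs
    obtain ⟨a, ha, hat⟩ := hA0
    obtain ⟨b, hb, hbt⟩ := hB0
    have hpre : IsPreconnected (univ : Set X) := isPreconnected_univ
    obtain ⟨x, -, hx⟩ := hpre U V h.hU h.hV (by rw [huniv])
      ⟨a, mem_univ _, h.hA a ha hat⟩ ⟨b, mem_univ _, h.hB b hb hbt⟩
    exact Set.disjoint_left.1 h.hd hx.1 hx.2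
  set s1 := sSup S with hs1
  have ht1s1 : t1 ≤ s1 := le_csSup hbdd ht1
  have ht0s1 : t0 < s1 := lt_of_lt_of_le h01 ht1s1
  -- the union of all partitions
  let U1 : Set X := {x | ∃ s U V, OG f t0 A B s U V ∧ x ∈ U}
  let V1 : Set X := {x | ∃ s U V, OG f t0 A B s U V ∧ x ∈ V}
  have hU1 : IsOpen U1 := by
    rw [isOpen_iff_mem_nhds]
    rintro x ⟨s, U, V, h, hx⟩
    filter_upwards [h.hU.mem_nhds hx] with w hw
    exact ⟨s, U, V, h, hw⟩
  have hV1 : IsOpen V1 := by
    rw [isOpen_iff_mem_nhds]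
    rintro x ⟨s, U, V, h, hx⟩
    filter_upwards [h.hV.mem_nhds hx] with w hw
    exact ⟨s, U, V, h, hw⟩
  have hd1 : Disjoint U1 V1 := by
    rw [Set.disjoint_left]
    rintro x ⟨s, U, V, h, hx⟩ ⟨s', U', V', h', hx'⟩
    exact Set.disjoint_left.1 (OG.cross hf hcov hmin h h') hx hx'
  have hu1 : U1 ∪ V1 = {x | f x < s1} := by
    ext x
    constructor
    · rintro (⟨s, U, V, h, hx⟩ | ⟨s, U, V, h, hx⟩)
      · have h1 : x ∈ U ∪ V := Or.inl hx
        rw [h.hu] at h1
        have h2 : s ≤ s1 := le_csSup hbdd ⟨U, V, h⟩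
        exact lt_of_lt_of_le h1 h2
      · have h1 : x ∈ U ∪ V := Or.inr hx
        rw [h.hu] at h1
        have h2 : s ≤ s1 := le_csSup hbdd ⟨U, V, h⟩
        exact lt_of_lt_of_le h1 h2
    · intro hx
      have hx' : f x < s1 := hx
      obtain ⟨s, ⟨U, V, h⟩, hs⟩ := exists_lt_of_lt_csSup ⟨t1, ht1⟩ hx'
      have h1 : x ∈ U ∪ V := by rw [h.hu]; exact hs
      rcases h1 with h1 | h1
      · exact Or.inl ⟨s, U, V, h, h1⟩
      · exact Or.inr ⟨s, U, V, h, h1⟩
  refine ⟨s1, ht0s1, U1, V1, hU1, hV1, hd1, hu1, ?_⟩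
  by_contra hcon
  push Not at hcon
  -- closures are disjoint; extend the partition beyond s1
  have hdc : Disjoint (closure U1) (closure V1) := by
    rw [Set.disjoint_left]; exact hcon
  have hcovc : ∀ x, f x ≤ s1 → x ∈ closure U1 ∪ closure V1 := by
    intro x hx
    rcases lt_or_eq_of_le hx with hlt | heq
    · have h1 : x ∈ U1 ∪ V1 := by rw [hu1]; exact hlt
      rcases h1 with h1 | h1
      · exact Or.inl (subset_closure h1)
      · exact Or.inr (subset_closure h1)
    · rw [← closure_union, hu1, mem_closure_iff_nhds]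
      intro t ht
      have h2 : ¬ IsLocalMin f x := hmin x (by rw [heq]; exact ht0s1)
      by_contra hne
      apply h2
      filter_upwards [ht] with w hw
      by_contra hlt
      apply hne
      refine ⟨w, hw, ?_⟩
      have : f w < f x := not_le.1 hlt
      rw [heq] at this
      exact this
  obtain ⟨O1, O2, hO1, hO2, hK1, hK2, hdO⟩ :=
    (normal_separation isClosed_closure isClosed_closure hdc)
  -- compactness: a level s2 > s1 with {f < s2} ⊆ O1 ∪ O2
  have hC : IsCompact ((O1 ∪ O2)ᶜ) := (hO1.union hO2).isClosed_compl.isCompact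
  obtain ⟨s2, hs2, hcov2⟩ : ∃ s2, s1 < s2 ∧ ∀ x, f x < s2 → x ∈ O1 ∪ O2 := by
    by_cases hne : ((O1 ∪ O2)ᶜ).Nonempty
    · obtain ⟨m, hm, hmm⟩ := hC.exists_isMinOn hne hf.continuousOn
      refine ⟨f m, ?_, ?_⟩
      · by_contra hle
        have h1 := hcovc m (not_lt.1 hle)
        apply hm
        rcases h1 with h1 | h1
        · exact Or.inl (hK1 h1)
        · exact Or.inr (hK2 h1)
      · intro x hx
        by_contra hx2
        have h1 : f m ≤ f x := hmm hx2
        exact absurd hx (not_lt.2 h1)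
    · refine ⟨s1 + 1, by linarith, ?_⟩
      intro x _
      by_contra hx2
      exact hne ⟨x, hx2⟩
  have hS2 : s2 ∈ S := by
    refine ⟨O1 ∩ {x | f x < s2}, O2 ∩ {x | f x < s2}, ?_, ?_, ?_, ?_, ?_, ?_⟩
    · exact hO1.inter (isOpen_lt hf continuous_const)
    · exact hO2.inter (isOpen_lt hf continuous_const)
    · exact hdO.mono inter_subset_left inter_subset_left
    · ext x
      constructor
      · rintro (h1 | h1)
        · exact h1.2
        · exact h1.2
      · intro hx
        rcases hcov2 x hx with h1 | h1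
        · exact Or.inl ⟨h1, hx⟩
        · exact Or.inr ⟨h1, hx⟩
    · intro x hx hxt
      refine ⟨hK1 (subset_closure ⟨t1, A, B, ?_, hx⟩), ?_⟩
      · exact ⟨hA, hB, hAB, hu, fun x hx _ => hx, fun x hx _ => hx⟩
      · exact lt_of_le_of_lt hxt (lt_trans ht0s1 hs2)
    · intro x hx hxt
      refine ⟨hK2 (subset_closure ⟨t1, A, B, ?_, hx⟩), ?_⟩
      · exact ⟨hA, hB, hAB, hu, fun x hx _ => hx, fun x hx _ => hx⟩
      · exact lt_of_le_of_lt hxt (lt_trans ht0s1 hs2)
  have : s2 ≤ s1 := le_csSup hbdd hS2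
  linarith

end Top

end Pool.Agent.Zk79.StarLNC
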