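import Mathlib
import Pool.Agent.Zk79.StarTop

/-!
# Clear visibility of locally non-convex points and starshapedness: the geometric part
-/

namespace Pool.Agent.Zk79.StarLNC

open Set Topology Filter Metric
open scoped InnerProductSpace

section Geo

variable {V : Type*} [NormedAddCommGroup V] [InnerProductSpace ℝ V]

/-- no small ball around `z` meets `E` in a convex set -/
def LN (E : Set V) (z : V) : Prop := ∀ r : ℝ, 0 < r → ¬ Convex ℝ (ball z r ∩ E)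

/-- `z` is clearly visible from `y` -/
def CV (E : Set V) (z y : V) : Prop := ∃ r : ℝ, 0 < r ∧ ∀ w ∈ ball z r ∩ E, segment ℝ y w ⊆ E

/-- `n` is a local outer normal of `E` at `z` (at scale `r`) -/
def Supp (E : Set V) (z n : V) (r : ℝ) : Prop := ∀ w ∈ E, dist w z < r → ⟪n, w - z⟫_ℝ ≤ 0

lemma mem_seg {x y : V} {t : ℝ} (h0 : 0 ≤ t) (h1 : t ≤ 1) : x + t • (y - x) ∈ segment ℝ x y := by
  rw [segment_eq_image']
  exact ⟨t, ⟨h0, h1⟩, rfl⟩

/-- there are arbitrarily small admissible parameters -/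
lemma exists_small {a r : ℝ} (ha : 0 ≤ a) (hr : 0 < r) :
    ∃ t0 : ℝ, 0 < t0 ∧ t0 ≤ 1 ∧ ∀ t, 0 < t → t ≤ t0 → t * a < r := by
  refine ⟨min 1 (r / (a + 1) / 2), ?_, min_le_left _ _, ?_⟩
  · apply lt_min one_pos; positivity
  · intro t ht htt
    have h1 : t ≤ r / (a + 1) / 2 := le_trans htt (min_le_right _ _)
    have h2 : t * (a + 1) ≤ r / 2 := by
      have : r / (a + 1) / 2 * (a + 1) = r / 2 := by field_simp
      rw [← this]
      exact mul_le_mul_of_nonneg_right h1 (by linarith)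
    nlinarith

lemma seg_supp {E : Set V} {z n y : V} {r : ℝ} (hr : 0 < r) (hs : Supp E z n r)
    (hseg : segment ℝ z y ⊆ E) : ⟪n, y - z⟫_ℝ ≤ 0 := by
  obtain ⟨t, ht0, ht1, ht⟩ := exists_small (norm_nonneg (y - z)) hr
  have h1 : z + t • (y - z) ∈ E := hseg (mem_seg ht0.le ht1)
  have h2 : dist (z + t • (y - z)) z < r := by
    rw [dist_eq_norm, add_sub_cancel_left, norm_smul, Real.norm_eq_abs, abs_of_pos ht0]
    exact ht t ht0 le_rfl
  have h3 := hs _ h1 h2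
  rw [add_sub_cancel_left, inner_smul_right] at h3
  by_contra hcon
  have : 0 < t * ⟪n, y - z⟫_ℝ := mul_pos ht0 (not_le.1 hcon)
  linarith

lemma norm_sq_expand (a b : V) (t : ℝ) :
    ‖a + t • b‖ ^ 2 = ‖a‖ ^ 2 + 2 * t * ⟪a, b⟫_ℝ + t ^ 2 * ‖b‖ ^ 2 := by
  rw [norm_add_sq_real, inner_smul_right, norm_smul, mul_pow, Real.norm_eq_abs, sq_abs]
  ring

lemma seg_ball {E : Set V} {x y c : V} {r : ℝ} (hr : 0 < r)
    (hmin : ∀ w ∈ E, dist w x < r → ‖x - c‖ ≤ ‖w - c‖)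
    (hseg : segment ℝ x y ⊆ E) : ⟪c - x, y - x⟫_ℝ ≤ 0 := by
  by_contra hcon
  have hpos : 0 < ⟪c - x, y - x⟫_ℝ := not_le.1 hcon
  obtain ⟨t1, ht10, ht11, ht1⟩ := exists_small (norm_nonneg (y - x)) hr
  obtain ⟨t2, ht20, ht21, ht2⟩ := exists_small (sq_nonneg (‖y - x‖)) hpos
  set t := min t1 t2 with htdef
  have ht0 : 0 < t := lt_min ht10 ht20
  have htle1 : t ≤ 1 := le_trans (min_le_left _ _) ht11
  have hd : dist (x + t • (y - x)) x < r := by
    rw [dist_eq_norm, add_sub_cancel_left, norm_smul, Real.norm_eq_abs, abs_of_pos ht0]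
    exact ht1 t ht0 (min_le_left _ _)
  have h1 := hmin _ (hseg (mem_seg ht0.le htle1)) hd
  have h2 : ‖x - c‖ ^ 2 ≤ ‖(x + t • (y - x)) - c‖ ^ 2 :=
    pow_le_pow_left₀ (norm_nonneg _) h1 2
  have h3 : (x + t • (y - x)) - c = (x - c) + t • (y - x) := by abel
  rw [h3, norm_sq_expand] at h2
  have h4 : ⟪x - c, y - x⟫_ℝ = - ⟪c - x, y - x⟫_ℝ := by
    rw [← inner_neg_left, neg_sub]
  rw [h4] at h2
  have h5 : t * ‖y - x‖ ^ 2 < ⟪c - x, y - x⟫_ℝ := ht2 t ht0 (min_le_right _ _)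
  have h6 : 0 ≤ t * (t * ‖y - x‖ ^ 2 - 2 * ⟪c - x, y - x⟫_ℝ) := by nlinarith
  have h7 : t * ‖y - x‖ ^ 2 - 2 * ⟪c - x, y - x⟫_ℝ < 0 := by linarith
  have h8 : t * (t * ‖y - x‖ ^ 2 - 2 * ⟪c - x, y - x⟫_ℝ) < 0 := mul_neg_of_pos_of_neg ht0 h7
  linarith

/-- The centre property obtained from Helly's theorem: every closed halfspace containing all
points from which the LNC point `z` is clearly visible contains `q`. -/
def Cen (E : Set V) (q : V) : Prop :=
  ∀ z ∈ E, LN E z → ∀ (m : V) (b : ℝ), (∀ y ∈ E, CV E z y → ⟪m, y⟫_ℝ ≤ b) → ⟪m, q⟫_ℝ ≤ b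

lemma Cen.exists_gt {E : Set V} {q : V} (hq : Cen E q) {z : V} (hz : z ∈ E) (hLN : LN E z)
    {m : V} {b : ℝ} (h : b < ⟪m, q⟫_ℝ) : ∃ y ∈ E, CV E z y ∧ b < ⟪m, y⟫_ℝ := by
  by_contra hcon
  push Not at hcon
  have := hq z hz hLN m b hcon
  linarith

lemma Cen.exists_dir {E : Set V} {q : V} (hq : Cen E q) {z : V} (hz : z ∈ E) (hLN : LN E z)
    {m : V} (h : 0 < ⟪m, q - z⟫_ℝ) : ∃ y ∈ E, CV E z y ∧ 0 < ⟪m, y - z⟫_ℝ := by
  rw [inner_sub_right] at h
  obtain ⟨y, hy, hcv, hlt⟩ := hq.exists_gt hz hLN (m := m) (b := ⟪m, z⟫_ℝ) (by linarith)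
  refine ⟨y, hy, hcv, ?_⟩
  rw [inner_sub_right]; linarith

lemma CV.seg {E : Set V} {z y : V} (h : CV E z y) (hz : z ∈ E) : segment ℝ y z ⊆ E := by
  obtain ⟨r, hr, h⟩ := h
  exact h z ⟨mem_ball_self hr, hz⟩

/-- the set of local supporting pairs -/
def PP (E : Set V) : Set (V × V) := {p | p.1 ∈ E ∧ ‖p.2‖ = 1 ∧ ∃ r : ℝ, 0 < r ∧ Supp E p.1 p.2 r}

/-- the value of a pair relative to the centre -/
noncomputable def val (q : V) (p : V × V) : ℝ := ⟪p.2, q - p.1⟫_ℝ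

lemma val_continuous (q : V) : Continuous (val q) := by
  unfold val
  exact continuous_snd.inner (continuous_const.sub continuous_fst)

lemma not_LN {E : Set V} {z : V} (h : ¬ LN E z) : ∃ r : ℝ, 0 < r ∧ Convex ℝ (ball z r ∩ E) := by
  unfold LN at h
  push Not at h
  exact h

/-- compactness of the set of pairs with value bounded below by a positive constant -/
lemma PP_compact [FiniteDimensional ℝ V] {E : Set V} (hE : IsCompact E) {q : V} (hq : Cen E q)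
    {c : ℝ} (hc : 0 < c) : IsCompact {p : V × V | p ∈ PP E ∧ c ≤ val q p} := by
  have hbig : IsCompact (E ×ˢ sphere (0 : V) 1) := hE.prod (isCompact_sphere 0 1)
  apply hbig.of_isClosed_subset
  · rw [← isSeqClosed_iff_isClosed]
    intro p p0 hp hlim
    have hlim1 : Tendsto (fun k => (p k).1) atTop (𝓝 p0.1) :=
      (continuous_fst.tendsto p0).comp hlim
    have hlim2 : Tendsto (fun k => (p k).2) atTop (𝓝 p0.2) :=
      (continuous_snd.tendsto p0).comp hlim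
    have hE0 : p0.1 ∈ E := hE.isClosed.mem_of_tendsto hlim1
      (Eventually.of_forall fun k => (hp k).1.1)
    have hn0 : ‖p0.2‖ = 1 := by
      have h1 : Tendsto (fun k => ‖(p k).2‖) atTop (𝓝 ‖p0.2‖) := hlim2.norm
      have h2 : (fun k => ‖(p k).2‖) = fun _ => (1 : ℝ) := by
        funext k; exact (hp k).1.2.1
      rw [h2] at h1
      exact tendsto_nhds_unique h1 tendsto_const_nhds
    have hv0 : c ≤ val q p0 := by
      have h1 : Tendsto (fun k => val q (p k)) atTop (𝓝 (val q p0)) :=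
        ((val_continuous q).tendsto p0).comp hlim
      exact ge_of_tendsto' h1 fun k => (hp k).2
    -- the key inequality at nearby points
    have key : ∀ y : V, (∀ᶠ k in atTop, segment ℝ (p k).1 y ⊆ E) → ⟪p0.2, y - p0.1⟫_ℝ ≤ 0 := by
      intro y hy
      have h1 : Tendsto (fun k => ⟪(p k).2, y - (p k).1⟫_ℝ) atTop (𝓝 ⟪p0.2, y - p0.1⟫_ℝ) :=
        hlim2.inner (tendsto_const_nhds.sub hlim1)
      apply le_of_tendsto h1
      filter_upwards [hy] with k hk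
      obtain ⟨r, hr, hs⟩ := (hp k).1.2.2
      exact seg_supp hr hs hk
    have hnLN : ¬ LN E p0.1 := by
      intro hLN
      obtain ⟨y, hy, ⟨r, hr, hcv⟩, hpos⟩ := hq.exists_dir hE0 hLN (m := p0.2)
        (lt_of_lt_of_le hc hv0)
      have h1 : ⟪p0.2, y - p0.1⟫_ℝ ≤ 0 := by
        apply key
        have h2 : ∀ᶠ k in atTop, (p k).1 ∈ ball p0.1 r := hlim1.eventually (ball_mem_nhds _ hr)
        filter_upwards [h2] with k hk
        rw [segment_symm]
        exact hcv _ ⟨hk, (hp k).1.1⟩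
      linarith
    obtain ⟨ρ, hρ, hconv⟩ := not_LN hnLN
    refine ⟨⟨hE0, hn0, ρ, hρ, ?_⟩, hv0⟩
    intro w hw hwd
    apply key
    have h2 : ∀ᶠ k in atTop, (p k).1 ∈ ball p0.1 ρ := hlim1.eventually (ball_mem_nhds _ hρ)
    filter_upwards [h2] with k hk
    exact (hconv.segment_subset ⟨hk, (hp k).1.1⟩ ⟨hwd, hw⟩).trans inter_subset_right
  · rintro ⟨z, n⟩ ⟨⟨h1, h2, -⟩, -⟩
    exact ⟨h1, by simpa using h2⟩

/-- the contact lemma -/
lemma contact {E : Set V} {q : V} (hq : Cen E q) {x c : V} (hx : x ∈ E) {r : ℝ} (hr : 0 < r)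
    (hmin : ∀ w ∈ E, dist w x < r → ‖x - c‖ ≤ ‖w - c‖) (hs : 0 < ‖c - x‖)
    (hpos : 0 < ⟪c - x, q - x⟫_ℝ) : (x, ‖c - x‖⁻¹ • (c - x)) ∈ PP E := by
  have hnLN : ¬ LN E x := by
    intro hLN
    obtain ⟨y, hy, hcv, hlt⟩ := hq.exists_dir hx hLN hpos
    have h1 := hcv.seg hx
    rw [segment_symm] at h1
    have h2 := seg_ball hr hmin h1
    linarith
  obtain ⟨ρ, hρ, hconv⟩ := not_LN hnLN
  refine ⟨hx, ?_, ρ, hρ, ?_⟩
  · change ‖‖c - x‖⁻¹ • (c - x)‖ = 1
    rw [norm_smul, norm_inv, norm_norm]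
    exact inv_mul_cancel₀ hs.ne'
  · intro w hw hwd
    change ⟪‖c - x‖⁻¹ • (c - x), w - x⟫_ℝ ≤ 0
    have h1 : segment ℝ x w ⊆ E :=
      (hconv.segment_subset ⟨mem_ball_self hρ, hx⟩ ⟨hwd, hw⟩).trans inter_subset_right
    have h2 := seg_ball hr hmin h1
    rw [real_inner_smul_left]
    exact mul_nonpos_of_nonneg_of_nonpos (inv_nonneg.2 (norm_nonneg _)) h2

lemma inner_lower (c x q : V) :
    ‖c - x‖ * (‖c - x‖ - ‖q - c‖) ≤ ⟪c - x, q - x⟫_ℝ := by
  have h1 : q - x = (c - x) + (q - c) := by abel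
  rw [h1, inner_add_right, real_inner_self_eq_norm_sq]
  have h2 := abs_le.1 (abs_real_inner_le_norm (c - x) (q - c))
  nlinarith [h2.1]

end Geo

end Pool.Agent.Zk79.StarLNC
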