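import Mathlib
import Pool.Agent.Zk79.StarTop
import Pool.Agent.Zk79.StarGeo

/-!
# Clear visibility of locally non-convex points and starshapedness: the main argument
-/

namespace Pool.Agent.Zk79.StarLNC

open Set Topology Filter Metric
open scoped InnerProductSpace

section Main

variable {V : Type*} [NormedAddCommGroup V] [InnerProductSpace ℝ V]

/-- If `q` does not see all of `E`, there is a pair of positive value. -/
lemma start {E : Set V} (hE : IsCompact E) {q : V} (hq : Cen E q)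
    {w : V} (hw : w ∈ E) (hns : ¬ segment ℝ q w ⊆ E) : ∃ p ∈ PP E, 0 < val q p := by
  obtain ⟨u, hu, huE⟩ := Set.not_subset.1 hns
  have hEne : E.Nonempty := ⟨w, hw⟩
  have hε : 0 < infDist u E := (hE.isClosed.notMem_iff_infDist_pos hEne).1 huE
  set ε := infDist u E with hεdef
  rw [segment_eq_image'] at hu
  obtain ⟨l, ⟨hl0, hl1⟩, rfl⟩ := hu
  have hl1' : l < 1 := by
    apply lt_of_le_of_ne hl1
    rintro rfl
    apply huE
    simpa using hw
  -- set of parameters at which the centre is close to E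
  let cen : ℝ → V := fun s => q + s • (w - q)
  have hcen : Continuous cen := by fun_prop
  have hg : Continuous (fun s => infDist (cen s) E) := (continuous_infDist_pt E).comp hcen
  let S : Set ℝ := Icc l 1 ∩ {s | infDist (cen s) E ≤ ε / 2}
  have hSc : IsCompact S := isCompact_Icc.inter_right (isClosed_le hg continuous_const)
  have hSne : S.Nonempty := by
    refine ⟨1, ⟨hl1, le_rfl⟩, ?_⟩
    have h1 : cen 1 = w := by simp [cen]
    change infDist (cen 1) E ≤ ε / 2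
    rw [h1, infDist_zero_of_mem hw]
    positivity
  obtain ⟨s0, hs0, hs0min⟩ := hSc.exists_isLeast hSne
  have hs0l : l < s0 := by
    apply lt_of_le_of_ne hs0.1.1
    rintro rfl
    have h1 : infDist (cen l) E ≤ ε / 2 := hs0.2
    have h2 : infDist (cen l) E = ε := rfl
    rw [h2] at h1
    linarith
  obtain ⟨x, hx, hxd⟩ := hE.exists_infDist_eq_dist hEne (cen s0)
  have hge : ∀ s, l ≤ s → s < s0 → ε / 2 < infDist (cen s) E := by
    intro s hsl hss
    by_contra hcon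
    have h1 : s ∈ S := ⟨⟨hsl, (hss.le.trans hs0.1.2)⟩, not_lt.1 hcon⟩
    have h2 := hs0min h1
    linarith
  have hle0 : infDist (cen s0) E ≤ ε / 2 := hs0.2
  have hge0 : ε / 2 ≤ infDist (cen s0) E := by
    have h1 : Tendsto (fun s => infDist (cen s) E) (𝓝[<] s0) (𝓝 (infDist (cen s0) E)) :=
      (hg.tendsto s0).mono_left nhdsWithin_le_nhds
    apply ge_of_tendsto h1
    have h2 : ∀ᶠ s in 𝓝[<] s0, l < s := by
      apply eventually_nhdsWithin_of_eventually_nhds
      exact eventually_gt_nhds hs0l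
    filter_upwards [h2, self_mem_nhdsWithin] with s h3 h4
    exact (hge s h3.le h4).le
  have heq0 : infDist (cen s0) E = ε / 2 := le_antisymm hle0 hge0
  set c := cen s0 with hc
  have hcx : ‖c - x‖ = ε / 2 := by
    rw [← dist_eq_norm, ← hxd, heq0]
  have hmin : ∀ v ∈ E, dist v x < 1 → ‖x - c‖ ≤ ‖v - c‖ := by
    intro v hv _
    rw [← norm_neg (x - c), neg_sub, hcx, ← heq0, ← norm_neg (v - c), neg_sub, ← dist_eq_norm]
    exact infDist_le_dist_of_mem hv
  -- direction inequality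
  have hdir : ⟪c - x, w - q⟫_ℝ ≤ 0 := by
    by_contra hcon
    have hpos : 0 < ⟪c - x, w - q⟫_ℝ := not_le.1 hcon
    obtain ⟨t, ht0, ht1, ht⟩ := exists_small (sq_nonneg (‖w - q‖)) hpos
    set h := min t (s0 - l) with hh
    have hh0 : 0 < h := lt_min ht0 (by linarith)
    have h1 : ε / 2 < infDist (cen (s0 - h)) E := by
      apply hge
      · have : h ≤ s0 - l := min_le_right _ _
        linarith
      · linarith
    have h2 : infDist (cen (s0 - h)) E ≤ ‖(c - x) + (-h) • (w - q)‖ := by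
      have h3 := infDist_le_dist_of_mem (x := cen (s0 - h)) hx
      rw [dist_eq_norm] at h3
      have h4 : cen (s0 - h) - x = (c - x) + (-h) • (w - q) := by
        simp only [cen, hc, sub_smul, neg_smul]; abel
      rw [h4] at h3
      exact h3
    have h3 : (ε / 2) ^ 2 < ‖(c - x) + (-h) • (w - q)‖ ^ 2 := by
      apply pow_lt_pow_left₀ (lt_of_lt_of_le h1 h2) (by positivity) (by norm_num)
    rw [norm_sq_expand, hcx] at h3
    have h4 : h * ‖w - q‖ ^ 2 < ⟪c - x, w - q⟫_ℝ := ht h hh0 (min_le_left _ _)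
    have h5 : 0 < h * (h * ‖w - q‖ ^ 2 - 2 * ⟪c - x, w - q⟫_ℝ) := by nlinarith
    have h6 : h * (h * ‖w - q‖ ^ 2 - 2 * ⟪c - x, w - q⟫_ℝ) < 0 :=
      mul_neg_of_pos_of_neg hh0 (by linarith)
    linarith
  have hqx : (ε / 2) ^ 2 ≤ ⟪c - x, q - x⟫_ℝ := by
    have h1 : q - x = (c - x) + (-s0) • (w - q) := by
      simp only [hc, cen, neg_smul]; abel
    rw [h1, inner_add_right, real_inner_self_eq_norm_sq, hcx, inner_smul_right]
    have h2 : 0 ≤ s0 := by linarith
    nlinarith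
  have hpos : 0 < ⟪c - x, q - x⟫_ℝ := lt_of_lt_of_le (by positivity) hqx
  have hcpos : 0 < ‖c - x‖ := by rw [hcx]; positivity
  refine ⟨(x, ‖c - x‖⁻¹ • (c - x)), contact hq hx one_pos hmin hcpos hpos, ?_⟩
  unfold val
  rw [real_inner_smul_left]
  exact mul_pos (inv_pos.2 hcpos) hpos

/-- The value of pairs attains a positive maximum. -/
lemma exists_max [FiniteDimensional ℝ V] {E : Set V} (hE : IsCompact E) {q : V} (hq : Cen E q)
    {w : V} (hw : w ∈ E) (hns : ¬ segment ℝ q w ⊆ E) :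
    ∃ p ∈ PP E, 0 < val q p ∧ ∀ p' ∈ PP E, val q p' ≤ val q p := by
  obtain ⟨p0, hp0, hv0⟩ := start hE hq hw hns
  obtain ⟨p, hp, hmax⟩ := (PP_compact hE hq hv0).exists_isMaxOn ⟨p0, hp0, le_rfl⟩
    (val_continuous q).continuousOn
  refine ⟨p, hp.1, lt_of_lt_of_le hv0 hp.2, ?_⟩
  intro p' hp'
  by_cases h : val q p0 ≤ val q p'
  · exact hmax ⟨hp', h⟩
  · exact le_trans (not_le.1 h).le hp.2

/-- The collar around the set of maximal contact points with a fixed normal. -/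
lemma exists_collar [FiniteDimensional ℝ V] {E : Set V} (hE : IsCompact E) {q : V}
    (hq : Cen E q) {zs n : V} (hp : (zs, n) ∈ PP E) (hD : 0 < val q (zs, n))
    (hmax : ∀ p' ∈ PP E, val q p' ≤ val q (zs, n)) :
    ∃ (M : Set V) (δ η : ℝ), 0 < δ ∧ 0 < η ∧ zs ∈ M ∧
      (∀ w ∈ E, infDist w M ≤ δ → ⟪n, w - zs⟫_ℝ ≤ 0) ∧
      (∀ w ∈ E, infDist w M = δ → ⟪n, w - zs⟫_ℝ ≤ -η) := by
  set D := val q (zs, n) with hDdef
  let M : Set V := {z | (z, n) ∈ PP E ∧ D ≤ val q (z, n)}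
  have hzsM : zs ∈ M := ⟨hp, le_rfl⟩
  have hMne : M.Nonempty := ⟨zs, hzsM⟩
  have hME : M ⊆ E := fun z hz => hz.1.1
  have hMc : IsCompact M := by
    apply hE.of_isClosed_subset _ hME
    have h1 : IsClosed {p : V × V | p ∈ PP E ∧ D ≤ val q p} := (PP_compact hE hq hD).isClosed
    have h2 : Continuous (fun z : V => (z, n)) := by fun_prop
    exact h1.preimage h2
  have hMz : ∀ z ∈ M, ⟪n, z - zs⟫_ℝ = 0 := by
    intro z hz
    have h1 : val q (z, n) = D := le_antisymm (hmax _ hz.1) hz.2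
    have h2 : z - zs = (q - zs) - (q - z) := by abel
    rw [h2, inner_sub_right]
    have h3 : ⟪n, q - zs⟫_ℝ = D := rfl
    have h4 : ⟪n, q - z⟫_ℝ = D := h1
    rw [h3, h4, sub_self]
  have hMO : M ⊆ interior {w | w ∈ E → ⟪n, w - zs⟫_ℝ ≤ 0} := by
    intro z hz
    rw [mem_interior_iff_mem_nhds]
    obtain ⟨r, hr, hs⟩ := hz.1.2.2
    filter_upwards [ball_mem_nhds z hr] with w hw hwE
    have h1 : ⟪n, w - z⟫_ℝ ≤ 0 := hs w hwE hw
    have h2 : w - zs = (w - z) + (z - zs) := by abel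
    rw [h2, inner_add_right, hMz z hz, add_zero]
    exact h1
  obtain ⟨δ0, hδ0, hthick⟩ := hMc.exists_thickening_subset_open isOpen_interior hMO
  have hcol : ∀ w ∈ E, infDist w M < δ0 → ⟪n, w - zs⟫_ℝ ≤ 0 := by
    intro w hw hd
    have h1 : w ∈ thickening δ0 M := by
      rw [mem_thickening_iff]
      exact (infDist_lt_iff hMne).1 hd
    exact interior_subset (hthick h1) hw
  have hshell : ∀ w ∈ E, infDist w M = δ0 / 2 → ⟪n, w - zs⟫_ℝ < 0 := by
    intro w hw hd
    by_contra hcon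
    have h0 : ⟪n, w - zs⟫_ℝ = 0 :=
      le_antisymm (hcol w hw (by rw [hd]; linarith)) (not_lt.1 hcon)
    have h1 : (w, n) ∈ PP E := by
      refine ⟨hw, hp.2.1, δ0 / 2, by positivity, ?_⟩
      intro v hv hvd
      change ⟪n, v - w⟫_ℝ ≤ 0
      have h2 : infDist v M < δ0 := by
        have h3 : infDist v M ≤ infDist w M + dist v w := infDist_le_infDist_add_dist
        have h4 : dist v w < δ0 / 2 := hvd
        rw [hd] at h3
        linarith
      have h3 := hcol v hv h2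
      have h4 : v - w = (v - zs) - (w - zs) := by abel
      rw [h4, inner_sub_right, h0, sub_zero]
      exact h3
    have h2 : D ≤ val q (w, n) := by
      change D ≤ ⟪n, q - w⟫_ℝ
      have h3 : q - w = (q - zs) - (w - zs) := by abel
      have h4 : ⟪n, q - zs⟫_ℝ = D := rfl
      rw [h3, inner_sub_right, h0, h4, sub_zero]
    have h3 : w ∈ M := ⟨h1, h2⟩
    rw [infDist_zero_of_mem h3] at hd
    linarith
  have hT : IsCompact (E ∩ {w | infDist w M = δ0 / 2}) :=
    hE.inter_right (isClosed_eq (continuous_infDist_pt M) continuous_const)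
  obtain ⟨η, hη, hηs⟩ : ∃ η : ℝ, 0 < η ∧ ∀ w ∈ E, infDist w M = δ0 / 2 →
      ⟪n, w - zs⟫_ℝ ≤ -η := by
    by_cases hne : (E ∩ {w | infDist w M = δ0 / 2}).Nonempty
    · have hcont : Continuous (fun w : V => ⟪n, w - zs⟫_ℝ) := by fun_prop
      obtain ⟨m, hm, hmm⟩ := hT.exists_isMaxOn hne hcont.continuousOn
      refine ⟨-⟪n, m - zs⟫_ℝ, ?_, ?_⟩
      · have := hshell m hm.1 hm.2
        linarith
      · intro w hw hwd
        rw [neg_neg]
        exact hmm ⟨hw, hwd⟩
    · refine ⟨1, one_pos, ?_⟩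
      intro w hw hwd
      exact absurd ⟨w, hw, hwd⟩ hne
  refine ⟨M, δ0 / 2, η, by positivity, hη, hzsM, ?_, hηs⟩
  intro w hw hwd
  exact hcol w hw (by linarith)

/-- A segment inside `E` cannot join the two parts of an open sublevel set. -/
lemma clash {E : Set V} {c : V} {s : ℝ} {U W : Set E} (hU : IsOpen U) (hW : IsOpen W)
    (hd : Disjoint U W) (hu : U ∪ W = {x : E | ‖(x : V) - c‖ < s}) {a b : E} (ha : a ∈ U)
    (hb : b ∈ W) (hseg : segment ℝ (a : V) (b : V) ⊆ E) : False := by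
  have h1 : IsPreconnected (segment ℝ (a : V) (b : V)) := (convex_segment _ _).isPreconnected
  have h2 : (Subtype.val : E → V) '' ((Subtype.val : E → V) ⁻¹' (segment ℝ (a : V) (b : V)))
      = segment ℝ (a : V) (b : V) := by
    rw [Subtype.image_preimage_val]
    exact inter_eq_right.2 hseg
  have h3 : IsPreconnected ((Subtype.val : E → V) ⁻¹' (segment ℝ (a : V) (b : V))) := by
    rw [← IsInducing.subtypeVal.isPreconnected_image, h2]
    exact h1
  have haf : ‖(a : V) - c‖ < s := by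
    have : a ∈ U ∪ W := Or.inl ha
    rw [hu] at this; exact this
  have hbf : ‖(b : V) - c‖ < s := by
    have : b ∈ U ∪ W := Or.inr hb
    rw [hu] at this; exact this
  have h4 : (Subtype.val : E → V) ⁻¹' (segment ℝ (a : V) (b : V)) ⊆ U ∪ W := by
    intro x hx
    rw [hu]
    change ‖(x : V) - c‖ < s
    have hx' : (x : V) ∈ segment ℝ (a : V) (b : V) := hx
    have h5 : segment ℝ (a : V) (b : V) ⊆ ball c s := by
      apply (convex_ball c s).segment_subset
      · rw [mem_ball, dist_eq_norm]; exact haf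
      · rw [mem_ball, dist_eq_norm]; exact hbf
    have h6 := h5 hx'
    rw [mem_ball, dist_eq_norm] at h6
    exact h6
  obtain ⟨x, -, hx⟩ := h3 U W hU hW h4 ⟨a, left_mem_segment ℝ _ _, ha⟩
    ⟨b, right_mem_segment ℝ _ _, hb⟩
  exact Set.disjoint_left.1 hd hx.1 hx.2

/-- One side of the merging argument. -/
lemma side {E : Set V} {c : V} {s : ℝ} {U W : Set E} (hU : IsOpen U) (hW : IsOpen W)
    (hd : Disjoint U W) (hu : U ∪ W = {x : E | ‖(x : V) - c‖ < s}) {z : E} (hz : z ∈ closure U)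
    {y : V} {r : ℝ} (hr : 0 < r) (hcv : ∀ w ∈ ball (z : V) r ∩ E, segment ℝ y w ⊆ E)
    {t : ℝ} (ht0 : 0 ≤ t) (ht1 : t ≤ 1) {p1 : E} (hp1 : (p1 : V) = z + t • (y - z))
    (hp1W : p1 ∈ W) : False := by
  obtain ⟨e, he, heW⟩ := Metric.isOpen_iff.1 hW p1 hp1W
  obtain ⟨w, hwU, hwd⟩ := Metric.mem_closure_iff.1 hz (min r e) (lt_min hr he)
  have hwr : dist (w : V) z < r := by
    rw [dist_comm]; exact lt_of_lt_of_le hwd (min_le_left _ _)
  have hwe : dist (w : V) z < e := by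
    rw [dist_comm]; exact lt_of_lt_of_le hwd (min_le_right _ _)
  have hsegE : segment ℝ (w : V) y ⊆ E := by
    rw [segment_symm]
    exact hcv w ⟨hwr, w.2⟩
  have hvmem : (w : V) + t • (y - w) ∈ segment ℝ (w : V) y := mem_seg ht0 ht1
  have hvW : (⟨(w : V) + t • (y - w), hsegE hvmem⟩ : E) ∈ W := by
    apply heW
    rw [mem_ball, Subtype.dist_eq, hp1, dist_eq_norm]
    have h1 : (w : V) + t • (y - w) - (z + t • (y - z)) = (1 - t) • ((w : V) - z) := by
      simp only [smul_sub, sub_smul, one_smul]; abel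
    rw [h1, norm_smul, Real.norm_eq_abs, abs_of_nonneg (by linarith : (0 : ℝ) ≤ 1 - t)]
    rw [dist_eq_norm] at hwe
    have h2 : (1 - t) * ‖(w : V) - z‖ ≤ 1 * ‖(w : V) - z‖ :=
      mul_le_mul_of_nonneg_right (by linarith) (norm_nonneg _)
    linarith
  refine clash hU hW hd hu hwU hvW ?_
  apply Subset.trans _ hsegE
  exact (convex_segment (w : V) y).segment_subset (left_mem_segment ℝ _ _) hvmem

/-- The point at which the two parts of the sublevel set merge leads to a contradiction. -/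
lemma no_merge {E : Set V} {q : V} (hq : Cen E q) {c : V} {s : ℝ} (hs : 0 < s)
    (hqc : ‖q - c‖ < s) {U W : Set E} (hU : IsOpen U)
    (hW : IsOpen W) (hd : Disjoint U W) (hu : U ∪ W = {x : E | ‖(x : V) - c‖ < s}) {z : E}
    (hzU : z ∈ closure U) (hzW : z ∈ closure W) : False := by
  have hfz : s ≤ ‖(z : V) - c‖ := by
    by_contra hcon
    have h1 : z ∈ U ∪ W := by rw [hu]; exact not_le.1 hcon
    rcases h1 with h1 | h1
    · obtain ⟨x, hx⟩ := mem_closure_iff.1 hzW U hU h1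
      exact Set.disjoint_left.1 hd hx.1 hx.2
    · obtain ⟨x, hx⟩ := mem_closure_iff.1 hzU W hW h1
      exact Set.disjoint_left.1 hd hx.2 hx.1
  have hfz' : ‖(z : V) - c‖ ≤ s := by
    have h1 : closure U ⊆ {x : E | ‖(x : V) - c‖ ≤ s} := by
      apply closure_minimal
      · intro x hx
        have h2 : x ∈ U ∪ W := Or.inl hx
        rw [hu] at h2
        have h3 : ‖(x : V) - c‖ < s := h2
        exact h3.le
      · apply isClosed_le _ continuous_const
        fun_prop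
    exact h1 hzU
  have hfeq : ‖(z : V) - c‖ = s := le_antisymm hfz' hfz
  have hcz : ‖c - (z : V)‖ = s := by rw [norm_sub_rev]; exact hfeq
  by_cases hLN : LN E (z : V)
  · have hpos : 0 < ⟪c - (z : V), q - z⟫_ℝ := by
      apply lt_of_lt_of_le _ (inner_lower c (z : V) q)
      rw [hcz]
      exact mul_pos hs (by linarith)
    obtain ⟨y, hy, ⟨r, hr, hcv⟩, hlt⟩ := hq.exists_dir z.2 hLN hpos
    obtain ⟨t, ht0, ht1, ht⟩ := exists_small (sq_nonneg (‖y - (z : V)‖)) hlt
    have hsegE : segment ℝ (z : V) y ⊆ E := by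
      rw [segment_symm]
      exact hcv z ⟨mem_ball_self hr, z.2⟩
    have hpE : (z : V) + t • (y - z) ∈ E := hsegE (mem_seg ht0.le ht1)
    have hpf : ‖((z : V) + t • (y - z)) - c‖ < s := by
      have h1 : ((z : V) + t • (y - z)) - c = ((z : V) - c) + t • (y - z) := by abel
      have h2 : ‖((z : V) + t • (y - z)) - c‖ ^ 2 < s ^ 2 := by
        rw [h1, norm_sq_expand, hfeq]
        have h3 : ⟪(z : V) - c, y - z⟫_ℝ = - ⟪c - (z : V), y - z⟫_ℝ := by
          rw [← inner_neg_left, neg_sub]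
        rw [h3]
        have h4 := ht t ht0 le_rfl
        have h5 : t * (t * ‖y - (z : V)‖ ^ 2 - 2 * ⟪c - (z : V), y - z⟫_ℝ) < 0 :=
          mul_neg_of_pos_of_neg ht0 (by linarith)
        nlinarith
      exact lt_of_pow_lt_pow_left₀ 2 hs.le h2
    have hp : (⟨(z : V) + t • (y - z), hpE⟩ : E) ∈ U ∪ W := by
      rw [hu]; exact hpf
    rcases hp with hp | hp
    · have hu' : W ∪ U = {x : E | ‖(x : V) - c‖ < s} := by rw [union_comm]; exact hu
      exact side hW hU hd.symm hu' hzW hr hcv ht0.le ht1 rfl hp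
    · exact side hU hW hd hu hzU hr hcv ht0.le ht1 rfl hp
  · obtain ⟨ρ, hρ, hconv⟩ := not_LN hLN
    obtain ⟨a, haU, had⟩ := Metric.mem_closure_iff.1 hzU ρ hρ
    obtain ⟨b, hbW, hbd⟩ := Metric.mem_closure_iff.1 hzW ρ hρ
    refine clash hU hW hd hu haU hbW ?_
    apply Subset.trans _ (inter_subset_right : ball (z : V) ρ ∩ E ⊆ E)
    apply hconv.segment_subset
    · refine ⟨?_, a.2⟩
      rw [mem_ball, dist_comm]; exact had
    · refine ⟨?_, b.2⟩
      rw [mem_ball, dist_comm]; exact hbd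

/-- The core theorem. -/
theorem core [FiniteDimensional ℝ V] {E : Set V} (hE : IsCompact E) (hpre : IsPreconnected E)
    {q : V} (hq : Cen E q) (hor : q ∈ E ∨ ∃ z ∈ E, LN E z) :
    ∀ w ∈ E, segment ℝ q w ⊆ E := by
  intro w hw
  by_contra hns
  obtain ⟨⟨zs, n⟩, hp, hD, hmax⟩ := exists_max hE hq hw hns
  obtain ⟨M, δ, η, hδ, hη, hzsM, hcol, hshell⟩ := exists_collar hE hq hp hD hmax
  have hzsE : zs ∈ E := hp.1
  have hn1 : ‖n‖ = 1 := hp.2.1
  set D := val q (zs, n) with hDdef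
  have hDq : ⟪n, q - zs⟫_ℝ = D := rfl
  -- the point u0 beyond the supporting hyperplane
  obtain ⟨u0, hu0E, hu0⟩ : ∃ u0 ∈ E, 0 < ⟪n, u0 - zs⟫_ℝ := by
    rcases hor with h | ⟨z, hz, hLN⟩
    · exact ⟨q, h, by rw [hDq]; exact hD⟩
    · have h1 : ⟪n, zs⟫_ℝ < ⟪n, q⟫_ℝ := by
        have : ⟪n, q⟫_ℝ - ⟪n, zs⟫_ℝ = D := by rw [← inner_sub_right]; exact hDq
        linarith
      obtain ⟨y, hy, -, hlt⟩ := hq.exists_gt hz hLN h1
      refine ⟨y, hy, ?_⟩
      rw [inner_sub_right]; linarith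
  -- choice of the centre
  obtain ⟨t, htD, ht1, ht2⟩ : ∃ t : ℝ, D < t ∧ ‖q - zs‖ ^ 2 < 2 * t * η ∧
      ‖u0 - zs‖ ^ 2 < 2 * t * ⟪n, u0 - zs⟫_ℝ := by
    refine ⟨D + 1 + ‖q - zs‖ ^ 2 / η + ‖u0 - zs‖ ^ 2 / ⟪n, u0 - zs⟫_ℝ, ?_, ?_, ?_⟩
    · have h1 : 0 ≤ ‖q - zs‖ ^ 2 / η := by positivity
      have h2 : 0 ≤ ‖u0 - zs‖ ^ 2 / ⟪n, u0 - zs⟫_ℝ := div_nonneg (sq_nonneg _) hu0.le
      linarith
    · have h2 : 0 ≤ ‖u0 - zs‖ ^ 2 / ⟪n, u0 - zs⟫_ℝ := div_nonneg (sq_nonneg _) hu0.le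
      have h3 : ‖q - zs‖ ^ 2 / η * η = ‖q - zs‖ ^ 2 := div_mul_cancel₀ _ hη.ne'
      have h4 : 0 < (D + 1) * η := by positivity
      have h5 : 0 ≤ ‖u0 - zs‖ ^ 2 / ⟪n, u0 - zs⟫_ℝ * η := mul_nonneg h2 hη.le
      have h6 : 0 ≤ ‖q - zs‖ ^ 2 := sq_nonneg _
      nlinarith
    · have h2 : 0 ≤ ‖q - zs‖ ^ 2 / η := by positivity
      have h3 : ‖u0 - zs‖ ^ 2 / ⟪n, u0 - zs⟫_ℝ * ⟪n, u0 - zs⟫_ℝ = ‖u0 - zs‖ ^ 2 :=
        div_mul_cancel₀ _ hu0.ne'
      have h4 : 0 < (D + 1) * ⟪n, u0 - zs⟫_ℝ := by positivity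
      have h5 : 0 ≤ ‖q - zs‖ ^ 2 / η * ⟪n, u0 - zs⟫_ℝ := mul_nonneg h2 hu0.le
      have h6 : 0 ≤ ‖u0 - zs‖ ^ 2 := sq_nonneg _
      nlinarith
  have ht0 : 0 < t := lt_trans hD htD
  set c := zs + t • n with hc
  have hexp : ∀ x : V, ‖x - c‖ ^ 2 = ‖x - zs‖ ^ 2 - 2 * t * ⟪n, x - zs⟫_ℝ + t ^ 2 := by
    intro x
    have h1 : x - c = (x - zs) + (-t) • n := by
      rw [hc, neg_smul]; abel
    rw [h1, norm_sq_expand, hn1, real_inner_comm]
    ring
  have hlow : ∀ x : V, t - ⟪n, x - zs⟫_ℝ ≤ ‖x - c‖ := by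
    intro x
    have h1 : ⟪n, c - x⟫_ℝ = t - ⟪n, x - zs⟫_ℝ := by
      have h2 : c - x = t • n - (x - zs) := by rw [hc]; abel
      rw [h2, inner_sub_right, inner_smul_right, real_inner_self_eq_norm_sq, hn1]
      ring
    rw [← h1, norm_sub_rev]
    have h3 := real_inner_le_norm n (c - x)
    rwa [hn1, one_mul] at h3
  have hzc : ‖zs - c‖ = t := by
    have h1 := hexp zs
    rw [sub_self, inner_zero_right, norm_zero] at h1
    have h2 : ‖zs - c‖ ^ 2 = t ^ 2 := by rw [h1]; ring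
    exact (pow_left_inj₀ (norm_nonneg _) ht0.le (by norm_num)).1 h2
  have ht0' : t ≤ ‖q - c‖ + D := by
    have h1 := hlow q
    rw [hDq] at h1
    linarith
  have ht01 : ‖q - c‖ + D < t + η := by
    have h1 : ‖q - c‖ < t + η - D := by
      have h2 : ‖q - c‖ ^ 2 < (t + η - D) ^ 2 := by
        rw [hexp q, hDq]
        nlinarith [sq_nonneg (η - D)]
      exact lt_of_pow_lt_pow_left₀ 2 (by linarith) h2
    linarith
  have hu0c : ‖u0 - c‖ < t := by
    have h2 : ‖u0 - c‖ ^ 2 < t ^ 2 := by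
      rw [hexp u0]; linarith
    exact lt_of_pow_lt_pow_left₀ 2 ht0.le h2
  -- topology on the subtype
  have : CompactSpace E := isCompact_iff_compactSpace.1 hE
  have : PreconnectedSpace E := Subtype.preconnectedSpace hpre
  have hf : Continuous (fun x : E => ‖(x : V) - c‖) := by fun_prop
  have hinf : Continuous (fun x : E => infDist (x : V) M) :=
    (continuous_infDist_pt M).comp continuous_subtype_val
  let A : Set E := {x | ‖(x : V) - c‖ < t + η} ∩ {x | infDist (x : V) M < δ}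
  let B : Set E := {x | ‖(x : V) - c‖ < t + η} ∩ {x | δ < infDist (x : V) M}
  have hA : IsOpen A := (isOpen_lt hf continuous_const).inter (isOpen_lt hinf continuous_const)
  have hB : IsOpen B := (isOpen_lt hf continuous_const).inter (isOpen_lt continuous_const hinf)
  have hAB : Disjoint A B := by
    rw [Set.disjoint_left]
    rintro x ⟨-, h1⟩ ⟨-, h2⟩
    have h1' : infDist (x : V) M < δ := h1
    have h2' : δ < infDist (x : V) M := h2
    linarith
  have hABu : A ∪ B = {x : E | ‖(x : V) - c‖ < t + η} := by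
    ext x
    constructor
    · rintro (h | h)
      · exact h.1
      · exact h.1
    · intro hx
      rcases lt_trichotomy (infDist (x : V) M) δ with h | h | h
      · exact Or.inl ⟨hx, h⟩
      · exfalso
        have h1 := hshell x x.2 h
        have h2 := hlow x
        have h3 : ‖(x : V) - c‖ < t + η := hx
        linarith
      · exact Or.inr ⟨hx, h⟩
  have hA0 : ∃ a ∈ A, ‖(a : V) - c‖ ≤ ‖q - c‖ + D := by
    refine ⟨⟨zs, hzsE⟩, ⟨?_, ?_⟩, ?_⟩
    · change ‖zs - c‖ < t + η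
      rw [hzc]; linarith
    · change infDist zs M < δ
      rw [infDist_zero_of_mem hzsM]; exact hδ
    · change ‖zs - c‖ ≤ ‖q - c‖ + D
      rw [hzc]; exact ht0'
  have hB0 : ∃ b ∈ B, ‖(b : V) - c‖ ≤ ‖q - c‖ + D := by
    refine ⟨⟨u0, hu0E⟩, ⟨?_, ?_⟩, ?_⟩
    · change ‖u0 - c‖ < t + η
      linarith
    · change δ < infDist u0 M
      by_contra hcon
      have h1 := hcol u0 hu0E (not_lt.1 hcon)
      linarith
    · change ‖u0 - c‖ ≤ ‖q - c‖ + D
      linarith
  have hmin : ∀ x : E, ‖q - c‖ + D < ‖(x : V) - c‖ →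
      ¬ IsLocalMin (fun x : E => ‖(x : V) - c‖) x := by
    intro x hx hloc
    obtain ⟨r, hr, hball⟩ := Metric.eventually_nhds_iff.1 hloc
    have hmin' : ∀ v ∈ E, dist v (x : V) < r → ‖(x : V) - c‖ ≤ ‖v - c‖ := by
      intro v hv hvd
      exact hball (y := ⟨v, hv⟩) hvd
    have hcx : ‖c - (x : V)‖ = ‖(x : V) - c‖ := norm_sub_rev _ _
    have hpos' : 0 < ‖c - (x : V)‖ := by
      rw [hcx]
      have := norm_nonneg (q - c)
      linarith
    have hin := inner_lower c (x : V) q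
    have hlt : D < ‖c - (x : V)‖ - ‖q - c‖ := by rw [hcx]; linarith
    have hpos : 0 < ⟪c - (x : V), q - x⟫_ℝ := by
      apply lt_of_lt_of_le _ hin
      exact mul_pos hpos' (by linarith)
    have h1 := contact hq x.2 hr hmin' hpos' hpos
    have h2 := hmax _ h1
    have h3 : val q ((x : V), ‖c - (x : V)‖⁻¹ • (c - (x : V)))
        = ‖c - (x : V)‖⁻¹ * ⟪c - (x : V), q - x⟫_ℝ := by
      unfold val
      rw [real_inner_smul_left]
    rw [h3] at h2
    have h4 : ‖c - (x : V)‖ - ‖q - c‖ ≤ ‖c - (x : V)‖⁻¹ * ⟪c - (x : V), q - x⟫_ℝ := by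
      rw [inv_mul_eq_div, le_div_iff₀ hpos']
      linarith
    linarith
  obtain ⟨s, hs, U, W, hU, hW, hdUW, huUW, z, hzU, hzW⟩ :=
    mountain_pass hf ht01 hA hB hAB hABu hA0 hB0 hmin
  have hs0 : 0 < s := lt_of_le_of_lt (by have := norm_nonneg (q - c); linarith) hs
  exact no_merge hq hs0 (by linarith) hU hW hdUW huUW hzU hzW

end Main

end Pool.Agent.Zk79.StarLNC
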