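import Mathlib

/-!
# The hypersimplex of type (2,4) with a cyclic group of order three

Auxiliary computations for an equivariant Ehrhart series.
-/

set_option autoImplicit false
open scoped Pointwise

namespace Pool.Agent.Zk79.H24

/-- the vertices of the octahedron -/
def V : Finset (Fin 3 → ℤ) :=
  {![1,0,0], ![0,1,0], ![0,0,1], ![0,1,1], ![1,0,1], ![1,1,0]}

/-- coercion to real vectors -/
def toR (v : Fin 3 → ℤ) : Fin 3 → ℝ := fun j => ((v j : ℤ) : ℝ)

/-- the real octahedron -/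
def P : Set (Fin 3 → ℝ) := convexHull ℝ (toR '' (V : Set (Fin 3 → ℤ)))

/-- the octahedron by inequalities -/
def K : Set (Fin 3 → ℝ) :=
  {p | (∀ i, 0 ≤ p i ∧ p i ≤ 1) ∧ 1 ≤ p 0 + p 1 + p 2 ∧ p 0 + p 1 + p 2 ≤ 2}

lemma K_convex : Convex ℝ K := by
  intro x hx y hy a b ha hb hab
  obtain ⟨hx1, hx2, hx3⟩ := hx
  obtain ⟨hy1, hy2, hy3⟩ := hy
  refine ⟨fun i => ?_, ?_, ?_⟩
  · obtain ⟨h1, h2⟩ := hx1 i
    obtain ⟨h3, h4⟩ := hy1 i
    simp only [Pi.add_apply, Pi.smul_apply, smul_eq_mul]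
    constructor
    · positivity
    · nlinarith
  · simp only [Pi.add_apply, Pi.smul_apply, smul_eq_mul]
    nlinarith
  · simp only [Pi.add_apply, Pi.smul_apply, smul_eq_mul]
    nlinarith

lemma P_subset_K : P ⊆ K := by
  apply convexHull_min _ K_convex
  rintro _ ⟨v, hv, rfl⟩
  simp only [V, Finset.coe_insert, Finset.coe_singleton, Set.mem_insert_iff,
    Set.mem_singleton_iff] at hv
  rcases hv with rfl | rfl | rfl | rfl | rfl | rfl <;>
  · refine ⟨fun i => ?_, ?_, ?_⟩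
    · fin_cases i <;> simp [toR]
    · simp [toR]
    · simp [toR] <;> norm_num

lemma mem_P_of_V {v : Fin 3 → ℤ} (hv : v ∈ V) : toR v ∈ P :=
  subset_convexHull ℝ _ ⟨v, by exact_mod_cast hv, rfl⟩

lemma K_subset_P : K ⊆ P := by
  rintro p ⟨h1, h2, h3⟩
  have h10 := h1 0
  have h11 := h1 1
  have h12 := h1 2
  set t0 := p 1 + p 2 - 1 with ht0
  set t1 := p 0 + p 2 - 1 with ht1
  set t2 := p 0 + p 1 - 1 with ht2
  set s := (1 - (|t0| + |t1| + |t2|)) / 6 with hs
  have hs0 : 0 ≤ s := by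
    have : |t0| + |t1| + |t2| ≤ 1 := by
      rcases abs_cases t0 with ⟨e0, _⟩ | ⟨e0, _⟩ <;> rcases abs_cases t1 with ⟨e1, _⟩ | ⟨e1, _⟩ <;>
        rcases abs_cases t2 with ⟨e2, _⟩ | ⟨e2, _⟩ <;> rw [e0, e1, e2, ht0, ht1, ht2] <;>
        linarith [h10.1, h10.2, h11.1, h11.2, h12.1, h12.2]
    rw [hs]; linarith
  have key := (convex_convexHull ℝ (toR '' (V : Set (Fin 3 → ℤ)))).sum_mem
    (t := (Finset.univ : Finset (Fin 6)))
    (w := ![(|t0| + t0)/2 + s, (|t1| + t1)/2 + s, (|t2| + t2)/2 + s,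
            (|t0| - t0)/2 + s, (|t1| - t1)/2 + s, (|t2| - t2)/2 + s])
    (z := ![toR ![0,1,1], toR ![1,0,1], toR ![1,1,0], toR ![1,0,0], toR ![0,1,0], toR ![0,0,1]])
    (by
      intro i _
      have a0 := abs_nonneg t0
      have := neg_abs_le t0
      have := le_abs_self t0
      have := neg_abs_le t1
      have := le_abs_self t1
      have := neg_abs_le t2
      have := le_abs_self t2
      fin_cases i <;> simp <;> linarith)
    (by
      simp [Fin.sum_univ_succ]
      rw [hs]; ring)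
    (by
      intro i _
      fin_cases i <;> exact mem_P_of_V (by decide))
  have : p = ∑ i : Fin 6, (![(|t0| + t0)/2 + s, (|t1| + t1)/2 + s, (|t2| + t2)/2 + s,
            (|t0| - t0)/2 + s, (|t1| - t1)/2 + s, (|t2| - t2)/2 + s] : Fin 6 → ℝ) i •
      (![toR ![0,1,1], toR ![1,0,1], toR ![1,1,0], toR ![1,0,0], toR ![0,1,0], toR ![0,0,1]] :
        Fin 6 → (Fin 3 → ℝ)) i := by
    funext j
    fin_cases j <;> simp [Fin.sum_univ_succ, toR] <;> rw [hs] <;> ring_nf <;> rw [ht0, ht1, ht2] <;>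
      ring
  rw [this]
  exact key

lemma P_eq_K : P = K := Set.Subset.antisymm P_subset_K K_subset_P

lemma mem_smul_P (m : ℕ) (x : Fin 3 → ℝ) :
    x ∈ (m : ℝ) • P ↔
      (∀ i, 0 ≤ x i ∧ x i ≤ m) ∧ (m : ℝ) ≤ x 0 + x 1 + x 2 ∧ x 0 + x 1 + x 2 ≤ 2 * m := by
  rw [P_eq_K]
  constructor
  · rintro ⟨p, ⟨h1, h2, h3⟩, rfl⟩
    have hm : (0 : ℝ) ≤ m := Nat.cast_nonneg m
    simp only [Pi.smul_apply, smul_eq_mul]
    refine ⟨fun i => ⟨mul_nonneg hm (h1 i).1, ?_⟩, ?_, ?_⟩
    · nlinarith [(h1 i).2]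
    · nlinarith
    · nlinarith
  · rintro ⟨h1, h2, h3⟩
    rcases Nat.eq_zero_or_pos m with rfl | hm
    · have hx : x = 0 := by
        funext i
        have := h1 i
        simp only [Nat.cast_zero] at this
        simp only [Pi.zero_apply]
        linarith [this.1, this.2]
      refine ⟨fun _ => 1/2, ⟨fun i => by norm_num, by norm_num, by norm_num⟩, ?_⟩
      rw [hx]; simp
    · have hm' : (0 : ℝ) < m := by exact_mod_cast hm
      refine ⟨(m : ℝ)⁻¹ • x, ⟨fun i => ⟨?_, ?_⟩, ?_, ?_⟩, ?_⟩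
      · simp only [Pi.smul_apply, smul_eq_mul]
        exact mul_nonneg (by positivity) (h1 i).1
      · simp only [Pi.smul_apply, smul_eq_mul]
        rw [inv_mul_le_iff₀ hm']
        linarith [(h1 i).2]
      · simp only [Pi.smul_apply, smul_eq_mul]
        rw [← mul_add, ← mul_add, le_inv_mul_iff₀ hm']
        linarith
      · simp only [Pi.smul_apply, smul_eq_mul]
        rw [← mul_add, ← mul_add, inv_mul_le_iff₀ hm']
        linarith
      · simp only [smul_smul]
        rw [mul_inv_cancel₀ hm'.ne', one_smul]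

lemma mem_int (m : ℕ) (x : Fin 3 → ℤ) :
    (fun j => ((x j : ℤ) : ℝ)) ∈ (m : ℝ) • P ↔
      (∀ i, 0 ≤ x i ∧ x i ≤ m) ∧ (m : ℤ) ≤ x 0 + x 1 + x 2 ∧ x 0 + x 1 + x 2 ≤ 2 * m := by
  rw [mem_smul_P]
  constructor
  · rintro ⟨h1, h2, h3⟩
    refine ⟨fun i => ⟨by exact_mod_cast (h1 i).1, by exact_mod_cast (h1 i).2⟩,
      by exact_mod_cast h2, by exact_mod_cast h3⟩
  · rintro ⟨h1, h2, h3⟩
    refine ⟨fun i => ⟨by exact_mod_cast (h1 i).1, by exact_mod_cast (h1 i).2⟩,
      by exact_mod_cast h2, by exact_mod_cast h3⟩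

/-- all lattice points of the m-th dilate, as a finite set -/
def S (m : ℕ) : Finset (ℕ × ℕ × ℕ) :=
  ((Finset.range (m+1)) ×ˢ ((Finset.range (m+1)) ×ˢ (Finset.range (m+1)))).filter
    (fun q => m ≤ q.1 + q.2.1 + q.2.2 ∧ q.1 + q.2.1 + q.2.2 ≤ 2 * m)

def emb (q : ℕ × ℕ × ℕ) : Fin 3 → ℤ := ![(q.1 : ℤ), (q.2.1 : ℤ), (q.2.2 : ℤ)]

lemma emb_inj : Function.Injective emb := by
  rintro ⟨a, b, c⟩ ⟨a', b', c'⟩ h
  have h0 := congrFun h 0
  have h1 := congrFun h 1
  have h2 := congrFun h 2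
  simp [emb] at h0 h1 h2
  subst h0 h1 h2
  rfl

lemma ncard_one (m : ℕ) :
    Set.ncard {x : Fin 3 → ℤ | (fun j => ((x j : ℤ) : ℝ)) ∈ (m : ℝ) • P} = (S m).card := by
  have : {x : Fin 3 → ℤ | (fun j => ((x j : ℤ) : ℝ)) ∈ (m : ℝ) • P}
      = emb '' ((S m : Finset (ℕ × ℕ × ℕ)) : Set (ℕ × ℕ × ℕ)) := by
    ext x
    simp only [Set.mem_ofPred_eq, Set.mem_image, Finset.mem_coe]
    rw [mem_int]
    constructor
    · rintro ⟨h1, h2, h3⟩
      have h10 := h1 0
      have h11 := h1 1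
      have h12 := h1 2
      refine ⟨((x 0).toNat, (x 1).toNat, (x 2).toNat), ?_, ?_⟩
      · simp only [S, Finset.mem_filter, Finset.mem_product, Finset.mem_range]
        omega
      · funext j
        fin_cases j <;> simp [emb] <;> omega
    · rintro ⟨⟨a, b, c⟩, h, rfl⟩
      simp only [S, Finset.mem_filter, Finset.mem_product, Finset.mem_range] at h
      refine ⟨fun i => ?_, ?_, ?_⟩
      · fin_cases i <;> simp [emb] <;> omega
      · simp [emb]; omega
      · simp [emb]; omega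
  rw [this, Set.ncard_image_of_injective _ emb_inj, Set.ncard_coe_finset]

/-- the inner count -/
lemma inner_card (m a b : ℕ) (ha : a ≤ m) (hb : b ≤ m) :
    ((Finset.range (m+1)).filter (fun c => m ≤ a + b + c ∧ a + b + c ≤ 2 * m)).card
      = if a + b ≤ m then a + b + 1 else 2 * m - a - b + 1 := by
  have : (Finset.range (m+1)).filter (fun c => m ≤ a + b + c ∧ a + b + c ≤ 2 * m)
      = Finset.Icc (m - a - b) (min m (2 * m - a - b)) := by
    ext c
    simp only [Finset.mem_filter, Finset.mem_range, Finset.mem_Icc]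
    omega
  rw [this, Nat.card_Icc]
  split_ifs with h <;> omega

lemma S_card (m : ℕ) :
    (S m).card = ∑ a ∈ Finset.range (m+1), ∑ b ∈ Finset.range (m+1),
      (if a + b ≤ m then a + b + 1 else 2 * m - a - b + 1) := by
  rw [S, Finset.card_filter, Finset.sum_product]
  refine Finset.sum_congr rfl fun a ha => ?_
  rw [Finset.sum_product]
  refine Finset.sum_congr rfl fun b hb => ?_
  rw [← inner_card m a b (by simpa [Nat.lt_succ_iff] using ha) (by simpa [Nat.lt_succ_iff] using hb),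
    Finset.card_filter]

lemma sum1 (a k : ℕ) : 2 * (∑ b ∈ Finset.range k, ((a : ℤ) + b + 1)) = k * (2 * a + k + 1) := by
  induction k with
  | zero => simp
  | succ k ih => rw [Finset.sum_range_succ, mul_add, ih]; push_cast; ring

lemma sum2 (a m k : ℕ) :
    2 * (∑ b ∈ Finset.range k, (2 * (m : ℤ) - a - (((m + 1 - a : ℤ)) + b) + 1))
      = k * (2 * m - k + 1) := by
  induction k with
  | zero => simp
  | succ k ih => rw [Finset.sum_range_succ, mul_add, ih]; push_cast; ring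

lemma inner_sum (m a : ℕ) (ha : a ≤ m) :
    2 * (((∑ b ∈ Finset.range (m+1),
      (if a + b ≤ m then a + b + 1 else 2 * m - a - b + 1) : ℕ)) : ℤ)
      = ((m : ℤ) + 1 - a) * (2 * a + (m + 1 - a) + 1) + a * (2 * m - a + 1) := by
  have hsplit : m + 1 = (m + 1 - a) + a := by omega
  rw [hsplit, Finset.sum_range_add]
  rw [Nat.cast_add, mul_add]
  congr 1
  · have h1 : (((∑ b ∈ Finset.range (m+1-a),
      (if a + b ≤ m then a + b + 1 else 2 * m - a - b + 1) : ℕ)) : ℤ)
      = ∑ b ∈ Finset.range (m+1-a), ((a : ℤ) + b + 1) := by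
      rw [Nat.cast_sum]
      refine Finset.sum_congr rfl fun b hb => ?_
      rw [Finset.mem_range] at hb
      rw [if_pos (by omega)]
      push_cast; ring
    rw [h1, sum1]
    have : ((m + 1 - a : ℕ) : ℤ) = (m : ℤ) + 1 - a := by omega
    rw [this]
  · have h1 : (((∑ b ∈ Finset.range a,
      (if a + (m + 1 - a + b) ≤ m then a + (m + 1 - a + b) + 1 else
        2 * m - a - (m + 1 - a + b) + 1) : ℕ)) : ℤ)
      = ∑ b ∈ Finset.range a, (2 * (m : ℤ) - a - (((m + 1 - a : ℤ)) + b) + 1) := by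
      rw [Nat.cast_sum]
      refine Finset.sum_congr rfl fun b hb => ?_
      rw [Finset.mem_range] at hb
      rw [if_neg (by omega)]
      omega
    rw [h1, sum2]

lemma outer_sum (m k : ℕ) :
    3 * (∑ a ∈ Finset.range k, (((m : ℤ) + 1 - a) * (2 * a + (m + 1 - a) + 1) + a * (2 * m - a + 1)))
      = k * (3 * m ^ 2 + 6 * m + 5 + 3 * m * k + 3 * k - 2 * (k : ℤ) ^ 2) := by
  induction k with
  | zero => simp
  | succ k ih => rw [Finset.sum_range_succ, mul_add, ih]; push_cast; ring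

lemma S_card_formula (m : ℕ) :
    3 * (((S m).card : ℕ) : ℤ) = ((m : ℤ) + 1) * (2 * m ^ 2 + 4 * m + 3) := by
  have h2 : 2 * (((S m).card : ℕ) : ℤ)
      = ∑ a ∈ Finset.range (m+1), (((m : ℤ) + 1 - a) * (2 * a + (m + 1 - a) + 1)
          + a * (2 * m - a + 1)) := by
    rw [S_card, Nat.cast_sum, Finset.mul_sum]
    refine Finset.sum_congr rfl fun a ha => ?_
    rw [Finset.mem_range] at ha
    exact inner_sum m a (by omega)
  have h3 := outer_sum m (m+1)
  rw [← h2] at h3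
  push_cast at h3
  nlinarith [h3]

end Pool.Agent.Zk79.H24
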