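import Pool.Agent.Zk79.TaylorRigid

/-!
# Finite subsets of `ℤ × ℤ` and their layers `x + t v`, `t < k`
-/

set_option autoImplicit false

namespace Pool.Agent.Zk79.RigidZ

open Finset Pool.Agent.Zk79.Taylor

/-- the layer `t` of the point `(x, v)`: the number `x + t v` -/
def layer (t : ℕ) (z : ℤ × ℤ) : ℤ := z.1 + (t : ℤ) * z.2

/-- `f` is a compatible `n`-ary operation on `A`: it maps `A^n` to `A`, and for each `t < k` the layer
`t` of `f(u_1, …, u_n)` depends only on the layers `t` of `u_1, …, u_n`. -/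
def Compatible (k : ℕ) (A : Finset (ℤ × ℤ)) (n : ℕ) (f : (Fin n → ℤ × ℤ) → ℤ × ℤ) : Prop :=
  (∀ u, (∀ i, u i ∈ A) → f u ∈ A) ∧
  ∀ t < k, ∀ u v, (∀ i, u i ∈ A) → (∀ i, v i ∈ A) → (∀ i, layer t (u i) = layer t (v i)) →
    layer t (f u) = layer t (f v)

/-- every compatible idempotent operation on `A` is a projection -/
def Rigid (k : ℕ) (A : Finset (ℤ × ℤ)) : Prop :=
  ∀ (n : ℕ) (f : (Fin n → ℤ × ℤ) → ℤ × ℤ), Compatible k A n f → (∀ x ∈ A, f (fun _ => x) = x) →
    ∃ i, ∀ u, (∀ j, u j ∈ A) → f u = u i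

/-- `A` cannot be divided in two nonempty parts `B`, `A \ B` with disjoint layers `t` for all `t < k`
different from `t₀`. -/
def Irreducible (k : ℕ) (A : Finset (ℤ × ℤ)) : Prop :=
  ∀ t₀ < k, ∀ B ⊆ A, B.Nonempty → (A \ B).Nonempty →
    ∃ t < k, t ≠ t₀ ∧ ¬ Disjoint (B.image (layer t)) ((A \ B).image (layer t))

/-- `A` has no irreducible and rigid subset with at least two elements. -/
def NoRigidPart (k : ℕ) (A : Finset (ℤ × ℤ)) : Prop :=
  ∀ B ⊆ A, 2 ≤ #B → ¬ (Irreducible k B ∧ Rigid k B)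

/-- For any two different elements `x`, `y` of `A` there is a compatible operation `f` with
`f(x, …, x) = x`, `f(y, …, y) = y` which is not a projection on the tuples of elements `x`, `y`. -/
def Flexible (k : ℕ) (A : Finset (ℤ × ℤ)) : Prop :=
  ∀ x ∈ A, ∀ y ∈ A, x ≠ y → ∃ (n : ℕ) (f : (Fin n → ℤ × ℤ) → ℤ × ℤ),
    Compatible k A n f ∧ f (fun _ => x) = x ∧ f (fun _ => y) = y ∧
    ∀ i, ∃ u : Fin n → ℤ × ℤ, (∀ j, u j = x ∨ u j = y) ∧ f u ≠ u i

/-- `A` is closed under componentwise `n`-ary operations `μ t` on its layers, for some `n`, which are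
idempotent, and for each place `i` there are sets `Z ∋ i`, `W ∌ i` of places such that all these
operations satisfy the identity `μ(χ_Z(x, y)) = μ(χ_W(x, y))` for `x`, `y` in the layer, where
`χ_Z(x, y)` has the entries `y` at the places in `Z` and `x` at the other ones (a Taylor system of
identities). -/
def TaylorClosed (k : ℕ) (A : Finset (ℤ × ℤ)) : Prop :=
  ∃ (n : ℕ) (μ : ℕ → (Fin n → ℤ) → ℤ),
    (∀ t < k, ∀ x ∈ A.image (layer t), μ t (fun _ => x) = x) ∧
    (∀ i, ∃ Z W : Finset (Fin n), i ∈ Z ∧ i ∉ W ∧ ∀ t < k,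
      ∀ x ∈ A.image (layer t), ∀ y ∈ A.image (layer t),
        μ t (fun j => if j ∈ Z then y else x) = μ t (fun j => if j ∈ W then y else x)) ∧
    ∀ u : Fin n → ℤ × ℤ, (∀ j, u j ∈ A) → ∃ c ∈ A, ∀ t < k,
      layer t c = μ t (fun j => layer t (u j))

/-- the layers as homomorphisms -/
def hm (k : ℕ) (t : Fin k) : ℤ × ℤ →+ ℤ :=
  AddMonoidHom.mk' (layer t) (by
    intro a b
    simp [layer]
    ring)

theorem hm_apply (k : ℕ) (t : Fin k) (z : ℤ × ℤ) : hm k t z = layer t.1 z := rfl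

theorem th_layer {k : ℕ} {A : Finset (ℤ × ℤ)} (t : Fin k) (x y : {x // x ∈ A}) :
    Th (fun s => (hm k s).ker) t x y ↔ layer t.1 x.1 = layer t.1 y.1 := by
  rw [th_iff', hm_apply, hm_apply]

theorem layer_inj {s t : ℕ} (hst : s ≠ t) {a b : ℤ × ℤ}
    (h1 : layer s a = layer s b) (h2 : layer t a = layer t b) : a = b := by
  have hne : (s : ℤ) - t ≠ 0 := sub_ne_zero.2 (by exact_mod_cast hst)
  unfold layer at h1 h2
  have h3 : ((s : ℤ) - t) * (a.2 - b.2) = 0 := by linear_combination h1 - h2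
  have h4 : a.2 = b.2 := sub_eq_zero.1 ((mul_eq_zero.1 h3).resolve_left hne)
  rw [h4] at h1
  exact Prod.ext (add_right_cancel h1) h4

theorem hm_inj (k : ℕ) : ∀ i j : Fin k, i ≠ j → ∀ g, hm k i g = 0 → hm k j g = 0 → g = 0 := by
  intro i j hij g h1 h2
  rw [← map_zero (hm k i)] at h1
  rw [← map_zero (hm k j)] at h2
  exact layer_inj (fun h => hij (Fin.ext h)) h1 h2

/-- an additive embedding of `ℤ × ℤ` in the real numbers -/
noncomputable def lam : ℤ × ℤ →+ ℝ :=
  AddMonoidHom.mk' (fun z => (z.1 : ℝ) + z.2 * √2) (by intro a b; simp; ring)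

theorem lam_injective : Function.Injective lam := by
  rw [injective_iff_map_eq_zero]
  intro z hz
  have h1 : (z.1 : ℝ) + z.2 * √2 = 0 := hz
  have h2 : z.2 = 0 := by
    by_contra h
    have h3 : √2 = ((-(z.1 : ℚ) / z.2 : ℚ) : ℝ) := by
      have h4 : (z.2 : ℝ) ≠ 0 := by exact_mod_cast h
      push_cast
      rw [eq_div_iff h4]
      linarith
    exact irrational_sqrt_two ⟨_, h3.symm⟩
  rw [h2, Int.cast_zero, zero_mul, add_zero] at h1
  exact Prod.ext (by exact_mod_cast h1) h2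

/-- sets without rigid parts -/
theorem bound (k : ℕ) (hk : 2 ≤ k) (A : Finset (ℤ × ℤ)) (hA : NoRigidPart k A) :
    #A ^ (k - 1) ≤ ∏ t ∈ range k, #(A.image (layer t)) := by
  classical
  have : Nontrivial (Fin k) := Fin.nontrivial_iff_two_le.2 hk
  have hprod : ∀ B : Finset (ℤ × ℤ),
      ∏ s : Fin k, (#(B.image (hm k s)) : ℝ) = ∏ t ∈ range k, (#(B.image (layer t)) : ℝ) :=
    fun B => Fin.prod_univ_eq_prod_range (fun t => (#(B.image (layer t)) : ℝ)) k
  by_contra hcon
  push Not at hcon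
  obtain ⟨B, hBA, hB2, -, hirr, hr⟩ := exists_rigid (hm k) lam lam_injective (hm_inj k)
    (κ := ((k - 1 : ℕ) : ℝ)) (by exact_mod_cast (by omega : 0 < k - 1))
    (by
      rw [Fintype.card_fin, Nat.cast_sub (by omega : 1 ≤ k)]
      simp) A (by
      unfold Bnd
      rw [hprod, Real.rpow_natCast]
      refine not_le.2 ?_
      exact_mod_cast hcon)
  refine hA B hBA hB2 ⟨?_, ?_⟩
  · intro t₀ ht₀ C hC ⟨x, hx⟩ ⟨y, hy⟩
    obtain ⟨hyB, hyC⟩ := mem_sdiff.1 hy
    have hchain : Psi (fun s => (hm k s).ker) ⟨t₀, ht₀⟩ (⟨x, hC hx⟩ : {x // x ∈ B}) ⟨y, hyB⟩ :=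
      hirr _ _ _
    by_contra hcon'
    push Not at hcon'
    have hstep : ∀ z : {x // x ∈ B},
        Relation.ReflTransGen (Step (fun s => (hm k s).ker) ⟨t₀, ht₀⟩)
          (⟨x, hC hx⟩ : {x // x ∈ B}) z → z.1 ∈ C := by
      intro z hz
      induction hz with
      | refl => exact hx
      | tail _ hbc ih =>
        rename_i b c _
        obtain ⟨s, hs, hth⟩ := hbc
        by_contra hc
        have h1 := hcon' s.1 s.2 (fun h => hs (Fin.ext h))
        rw [disjoint_left] at h1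
        refine h1 (mem_image_of_mem _ ih) ?_
        rw [th_layer] at hth
        exact mem_image.2 ⟨c.1, mem_sdiff.2 ⟨c.2, hc⟩, hth.symm⟩
    exact hyC (hstep ⟨y, hyB⟩ hchain)
  · intro n f hf hfi
    obtain ⟨i, hi⟩ := hr n (fun u => ⟨f fun j => (u j).1, hf.1 _ fun j => (u j).2⟩)
      (by
        intro s u v huv
        rw [th_layer]
        simp only [th_layer] at huv
        exact hf.2 s.1 s.2 (fun j => (u j).1) (fun j => (v j).1) (fun j => (u j).2)
          (fun j => (v j).2) huv)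
      (fun x => Subtype.ext (hfi x.1 x.2))
    exact ⟨i, fun u hu => congrArg Subtype.val (hi fun j => ⟨u j, hu j⟩)⟩

theorem noRigidPart_of_flexible (k : ℕ) (hk : 2 ≤ k) (A : Finset (ℤ × ℤ)) (hA : Flexible k A) :
    NoRigidPart k A := by
  classical
  have : Nontrivial (Fin k) := Fin.nontrivial_iff_two_le.2 hk
  rintro B hBA hB2 ⟨hirr, -⟩
  obtain ⟨x, hx, y, hy, hxy⟩ := one_lt_card.1 (by omega : 1 < #B)
  have hsep := separated (A := A) (K := fun s => (hm k s).ker) lam lam_injective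
    (fun i j hij g h1 h2 => hm_inj k i j hij g ((AddMonoidHom.mem_ker).1 h1)
      ((AddMonoidHom.mem_ker).1 h2))
    (by
      intro a b hab
      obtain ⟨n, f, hf, hfa, hfb, hfn⟩ := hA a.1 a.2 b.1 b.2 (fun h => hab (Subtype.ext h))
      refine ⟨n, fun u => ⟨f fun j => (u j).1, hf.1 _ fun j => (u j).2⟩, ?_, Subtype.ext hfa,
        Subtype.ext hfb, ?_⟩
      · intro s u v huv
        rw [th_layer]
        simp only [th_layer] at huv
        exact hf.2 s.1 s.2 (fun j => (u j).1) (fun j => (v j).1) (fun j => (u j).2)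
          (fun j => (v j).2) huv
      · intro i
        obtain ⟨u, hu, hui⟩ := hfn i
        have hmem : ∀ j, u j ∈ A := fun j => by
          rcases hu j with h | h
          · rw [h]; exact a.2
          · rw [h]; exact b.2
        refine ⟨fun j => ⟨u j, hmem j⟩, fun j => ?_, fun h => hui (congrArg Subtype.val h)⟩
        rcases hu j with h | h
        · exact Or.inl (Subtype.ext h)
        · exact Or.inr (Subtype.ext h))
  refine hxy (congrArg Subtype.val (hsep ⟨x, hBA hx⟩ ⟨y, hBA hy⟩ fun s => ?_))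
  let C : Finset (ℤ × ℤ) := B.filter fun z => ∃ h : z ∈ A,
    Psi (fun s => (hm k s).ker) s (⟨x, hBA hx⟩ : {x // x ∈ A}) ⟨z, h⟩
  have hC : C ⊆ B := filter_subset _ _
  have hxC : x ∈ C := mem_filter.2 ⟨hx, hBA hx, psi_refl s _⟩
  by_contra hcon
  have hyC : y ∈ B \ C := mem_sdiff.2 ⟨hy, fun h => by
    obtain ⟨-, h1, h2⟩ := mem_filter.1 h
    exact hcon h2⟩
  obtain ⟨t, ht, hts, hnd⟩ := hirr s.1 s.2 C hC ⟨x, hxC⟩ ⟨y, hyC⟩
  rw [not_disjoint_iff] at hnd
  obtain ⟨v, hv, hv'⟩ := hnd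
  obtain ⟨z, hz, rfl⟩ := mem_image.1 hv
  obtain ⟨w, hw, hwz⟩ := mem_image.1 hv'
  obtain ⟨hzB, hzA, hz'⟩ := mem_filter.1 hz
  obtain ⟨hwB, hwC⟩ := mem_sdiff.1 hw
  refine hwC (mem_filter.2 ⟨hwB, hBA hwB, psi_trans hz' ?_⟩)
  have hth : Th (fun s => (hm k s).ker) ⟨t, ht⟩ (⟨z, hzA⟩ : {x // x ∈ A}) ⟨w, hBA hwB⟩ :=
    (th_layer ⟨t, ht⟩ ⟨z, hzA⟩ ⟨w, hBA hwB⟩).2 hwz.symm
  exact psi_of_th (fun h => hts (congrArg Fin.val h)) hth

theorem flexible_of_taylorClosed (k : ℕ) (hk : 2 ≤ k) (A : Finset (ℤ × ℤ))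
    (hA : TaylorClosed k A) : Flexible k A := by
  classical
  obtain ⟨n, μ, hμ, hid, hcl⟩ := hA
  have huniq : ∀ c e : ℤ × ℤ, (∀ t < k, layer t c = layer t e) → c = e :=
    fun c e h => layer_inj (s := 0) (t := 1) (by norm_num) (h _ (by omega)) (h _ (by omega))
  have hch : ∀ u : Fin n → ℤ × ℤ, ∃ c : ℤ × ℤ,
      (∀ j, u j ∈ A) → c ∈ A ∧ ∀ t < k, layer t c = μ t (fun j => layer t (u j)) := by
    intro u
    by_cases h : ∀ j, u j ∈ A
    · obtain ⟨c, hc⟩ := hcl u h
      exact ⟨c, fun _ => hc⟩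
    · exact ⟨0, fun h' => absurd h' h⟩
  choose f hf using hch
  have hconst : ∀ c ∈ A, f (fun _ => c) = c := by
    intro c hc
    refine huniq _ _ fun t ht => ?_
    rw [(hf (fun _ => c) fun _ => hc).2 t ht, hμ t ht _ (mem_image_of_mem _ hc)]
  intro a ha b hb hab
  refine ⟨n, f, ⟨fun u hu => (hf u hu).1, ?_⟩, hconst a ha, hconst b hb, ?_⟩
  · intro t ht u v hu hv huv
    rw [(hf u hu).2 t ht, (hf v hv).2 t ht]
    congr 1
    funext j
    exact huv j
  · intro i
    obtain ⟨Z, W, hZ, hW, h1⟩ := hid i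
    have hmem : ∀ T : Finset (Fin n), ∀ j, (if j ∈ T then b else a) ∈ A := by
      intro T j
      split_ifs
      · exact hb
      · exact ha
    have heq : f (fun j => if j ∈ Z then b else a) = f (fun j => if j ∈ W then b else a) := by
      have q : ∀ (g : ℤ × ℤ → ℤ) (T : Finset (Fin n)),
          (fun j => g (if j ∈ T then b else a)) = fun j => if j ∈ T then g b else g a := by
        intro g T
        funext j
        split_ifs <;> rfl
      refine huniq _ _ fun t ht => ?_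
      rw [(hf _ (hmem Z)).2 t ht, (hf _ (hmem W)).2 t ht, q (layer t) Z, q (layer t) W]
      exact h1 t ht _ (mem_image_of_mem _ ha) _ (mem_image_of_mem _ hb)
    have hab' : ∀ (T : Finset (Fin n)) (j : Fin n),
        (if j ∈ T then b else a) = a ∨ (if j ∈ T then b else a) = b := by
      intro T j
      by_cases hj : j ∈ T
      · rw [if_pos hj]; exact Or.inr rfl
      · rw [if_neg hj]; exact Or.inl rfl
    by_cases h : f (fun j => if j ∈ Z then b else a) = b
    · refine ⟨fun j => if j ∈ W then b else a, hab' W, fun h' => hab ?_⟩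
      have h3 : f (fun j => if j ∈ W then b else a) = if i ∈ W then b else a := h'
      rw [← heq, h, if_neg hW] at h3
      exact h3.symm
    · refine ⟨fun j => if j ∈ Z then b else a, hab' Z, fun h' => h ?_⟩
      have h3 : f (fun j => if j ∈ Z then b else a) = if i ∈ Z then b else a := h'
      rw [h3, if_pos hZ]

end Pool.Agent.Zk79.RigidZ
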