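import Pool.Agent.R181.LW

/-!
# Subsets of ordered groups with compatible operations

`G` is an abelian group which is embedded in the real numbers, `K i` are subgroups of `G` with
`K i ∩ K j = 0` for `i ≠ j`, and `A` is a finite subset of `G`, `α` denotes the type of its elements.
-/

set_option autoImplicit false

universe u

namespace Pool.Agent.Zk79.Taylor

open Finset Pool.Agent.R181.LW

section Chains

variable {G : Type} [AddCommGroup G] {A : Finset G} {ι : Type} (K : ι → AddSubgroup G)

/-- congruence modulo `K s` -/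
def Th (s : ι) (x y : {x // x ∈ A}) : Prop := (x : G) - y ∈ K s

/-- one step with a congruence different from the one with index `k` -/
def Step (k : ι) (x y : {x // x ∈ A}) : Prop := ∃ s, s ≠ k ∧ Th K s x y

/-- the join of the congruences with index different from `k` -/
def Psi (k : ι) (x y : {x // x ∈ A}) : Prop := Relation.ReflTransGen (Step K k) x y

/-- the join of all congruences, for tuples: all components are changed modulo the same subgroup -/
def Tup {n : ℕ} (u v : Fin n → {x // x ∈ A}) : Prop := ∃ s, ∀ j, Th K s (u j) (v j)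

variable {K}

theorem th_refl (s : ι) (x : {x // x ∈ A}) : Th K s x x := by
  unfold Th
  rw [sub_self]
  exact (K s).zero_mem

theorem th_symm {s : ι} {x y : {x // x ∈ A}} (h : Th K s x y) : Th K s y x := by
  unfold Th at *
  rw [← neg_sub]
  exact (K s).neg_mem h

theorem psi_refl (k : ι) (x : {x // x ∈ A}) : Psi K k x x := Relation.ReflTransGen.refl

theorem psi_trans {k : ι} {x y z : {x // x ∈ A}} (h : Psi K k x y) (h' : Psi K k y z) :
    Psi K k x z := Relation.ReflTransGen.trans h h'

theorem psi_symm {k : ι} {x y : {x // x ∈ A}} (h : Psi K k x y) : Psi K k y x := by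
  unfold Psi at h ⊢
  induction h with
  | refl => exact Relation.ReflTransGen.refl
  | tail _ hbc ih =>
    obtain ⟨s, hs, h⟩ := hbc
    exact Relation.ReflTransGen.head ⟨s, hs, th_symm h⟩ ih

theorem psi_of_th {s k : ι} (h : s ≠ k) {x y : {x // x ∈ A}} (hxy : Th K s x y) : Psi K k x y :=
  Relation.ReflTransGen.single ⟨s, h, hxy⟩

/-- a compatible operation -/
def Comp (K : ι → AddSubgroup G) {n : ℕ} (F : (Fin n → {x // x ∈ A}) → {x // x ∈ A}) : Prop :=
  ∀ s u v, (∀ j, Th K s (u j) (v j)) → Th K s (F u) (F v)

theorem th_update {n : ℕ} {s : ι} {u v : Fin n → {x // x ∈ A}} (h : ∀ j, Th K s (u j) (v j))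
    (i : Fin n) (x : {x // x ∈ A}) :
    ∀ j, Th K s (Function.update u i x j) (Function.update v i x j) := by
  intro j
  by_cases hj : j = i
  · subst hj
    rw [Function.update_self, Function.update_self]
    exact th_refl s x
  · rw [Function.update_of_ne hj, Function.update_of_ne hj]
    exact h j

theorem th_update' {n : ℕ} {s : ι} (u : Fin n → {x // x ∈ A}) (i : Fin n) {x y : {x // x ∈ A}}
    (h : Th K s x y) : ∀ j, Th K s (Function.update u i x j) (Function.update u i y j) := by
  intro j
  by_cases hj : j = i
  · subst hj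
    rw [Function.update_self, Function.update_self]
    exact h
  · rw [Function.update_of_ne hj, Function.update_of_ne hj]
    exact th_refl s _

variable {n : ℕ} {F : (Fin n → {x // x ∈ A}) → {x // x ∈ A}}

/-- the second difference is `0` -/
theorem second_diff_step (hK : ∀ i j, i ≠ j → ∀ g, g ∈ K i → g ∈ K j → g = 0)
    (hF : Comp K F) (i : Fin n) {s t : ι} (hst : t ≠ s) {U V : Fin n → {x // x ∈ A}}
    (hUV : ∀ j, Th K s (U j) (V j)) {x y : {x // x ∈ A}} (hxy : Th K t x y) :
    (F (Function.update V i y) : G) - F (Function.update V i x) =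
      F (Function.update U i y) - F (Function.update U i x) := by
  have h1 : Th K s (F (Function.update U i y)) (F (Function.update V i y)) :=
    hF s _ _ (th_update hUV i y)
  have h2 : Th K s (F (Function.update U i x)) (F (Function.update V i x)) :=
    hF s _ _ (th_update hUV i x)
  have h3 : Th K t (F (Function.update U i x)) (F (Function.update U i y)) :=
    hF t _ _ (th_update' U i hxy)
  have h4 : Th K t (F (Function.update V i x)) (F (Function.update V i y)) :=
    hF t _ _ (th_update' V i hxy)
  unfold Th at h1 h2 h3 h4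
  have h5 : ((F (Function.update V i y) : G) - F (Function.update V i x)) -
      (F (Function.update U i y) - F (Function.update U i x)) ∈ K s := by
    have := (K s).sub_mem h2 h1
    convert this using 1
    abel
  have h6 : ((F (Function.update V i y) : G) - F (Function.update V i x)) -
      (F (Function.update U i y) - F (Function.update U i x)) ∈ K t := by
    have := (K t).sub_mem h3 h4
    convert this using 1
    abel
  exact sub_eq_zero.1 (hK t s hst _ h6 h5)

theorem second_diff_psi (hK : ∀ i j, i ≠ j → ∀ g, g ∈ K i → g ∈ K j → g = 0)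
    (hF : Comp K F) (i : Fin n) {s : ι} {U V : Fin n → {x // x ∈ A}}
    (hUV : ∀ j, Th K s (U j) (V j)) {x y : {x // x ∈ A}} (hxy : Psi K s x y) :
    (F (Function.update V i y) : G) - F (Function.update V i x) =
      F (Function.update U i y) - F (Function.update U i x) := by
  unfold Psi at hxy
  induction hxy with
  | refl => rw [sub_self, sub_self]
  | tail _ hbc ih =>
    obtain ⟨t, ht, h⟩ := hbc
    have h1 := second_diff_step hK hF i ht hUV h
    rw [← sub_add_sub_cancel _ ((F (Function.update V i _) : G)) _, h1, ih, sub_add_sub_cancel]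

theorem second_diff (hK : ∀ i j, i ≠ j → ∀ g, g ∈ K i → g ∈ K j → g = 0)
    (hF : Comp K F) (i : Fin n) {U V : Fin n → {x // x ∈ A}}
    (hUV : Relation.ReflTransGen (Tup K) U V) {x y : {x // x ∈ A}} (hxy : ∀ s, Psi K s x y) :
    (F (Function.update V i y) : G) - F (Function.update V i x) =
      F (Function.update U i y) - F (Function.update U i x) := by
  induction hUV with
  | refl => rfl
  | tail _ hbc ih =>
    obtain ⟨s, hs⟩ := hbc
    rw [second_diff_psi hK hF i hs (hxy s), ih]

/-- the tuple `c` restricted to the places in `T` -/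
def rst (a : {x // x ∈ A}) (c : Fin n → {x // x ∈ A}) (T : Finset (Fin n)) :
    Fin n → {x // x ∈ A} := fun j => if j ∈ T then c j else a

omit [AddCommGroup G] in
theorem rst_insert (a : {x // x ∈ A}) (c : Fin n → {x // x ∈ A}) (T : Finset (Fin n)) (i : Fin n) :
    rst a c (insert i T) = Function.update (rst a c T) i (c i) := by
  funext j
  by_cases hj : j = i
  · subst hj
    rw [Function.update_self]
    unfold rst
    rw [if_pos (mem_insert_self _ _)]
  · rw [Function.update_of_ne hj]
    unfold rst
    by_cases h : j ∈ T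
    · rw [if_pos h, if_pos (mem_insert_of_mem h)]
    · rw [if_neg h, if_neg (fun h' => (mem_insert.1 h').elim hj h)]

omit [AddCommGroup G] in
theorem rst_update (a : {x // x ∈ A}) (c : Fin n → {x // x ∈ A}) (T : Finset (Fin n)) (i : Fin n)
    (hi : i ∉ T) : rst a c T = Function.update (rst a c T) i a := by
  funext j
  by_cases hj : j = i
  · subst hj
    rw [Function.update_self]
    unfold rst
    rw [if_neg hi]
  · rw [Function.update_of_ne hj]

theorem rst_chain [Nontrivial ι] (a : {x // x ∈ A}) (c : Fin n → {x // x ∈ A})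
    (hc : ∀ j, ∀ s, Psi K s a (c j)) (T : Finset (Fin n)) :
    Relation.ReflTransGen (Tup K) (fun _ => a) (rst a c T) := by
  induction T using Finset.induction_on with
  | empty =>
    have : rst a c ∅ = fun _ => a := by
      funext j
      simp [rst]
    rw [this]
  | insert i T hi ih =>
    refine ih.trans ?_
    rw [rst_insert]
    have h1 : ∀ x, Relation.ReflTransGen (Step K (Classical.arbitrary ι)) a x →
        Relation.ReflTransGen (Tup K) (rst a c T) (Function.update (rst a c T) i x) := by
      intro x hx
      induction hx with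
      | refl => rw [← rst_update a c T i hi]
      | tail _ hbc ih' =>
        obtain ⟨s, -, h⟩ := hbc
        exact ih'.tail ⟨s, th_update' _ i h⟩
    exact h1 _ (hc i _)

theorem affine [Nontrivial ι] (hK : ∀ i j, i ≠ j → ∀ g, g ∈ K i → g ∈ K j → g = 0)
    (hF : Comp K F) (a : {x // x ∈ A}) (c : Fin n → {x // x ∈ A})
    (hc : ∀ j, ∀ s, Psi K s a (c j)) (T : Finset (Fin n)) :
    (F (rst a c T) : G) - F (fun _ => a) =
      ∑ i ∈ T, ((F (Function.update (fun _ => a) i (c i)) : G) - F (fun _ => a)) := by
  induction T using Finset.induction_on with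
  | empty =>
    have : rst a c ∅ = fun _ => a := by
      funext j
      simp [rst]
    rw [this, sub_self, sum_empty]
  | insert i T hi ih =>
    rw [sum_insert hi, ← ih, rst_insert]
    have h1 := second_diff hK hF i (rst_chain a c hc T) (x := a) (y := c i) (hc i)
    rw [← rst_update a c T i hi] at h1
    have h2 : Function.update (fun _ => a) i a = (fun _ : Fin n => a) := by
      funext j
      by_cases hj : j = i
      · subst hj; rw [Function.update_self]
      · rw [Function.update_of_ne hj]
    rw [h2] at h1
    rw [← h1]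
    abel

theorem psi_map (hF : Comp K F) (i : Fin n) (w : Fin n → {x // x ∈ A}) {s : ι}
    {x y : {x // x ∈ A}} (h : Psi K s x y) :
    Psi K s (F (Function.update w i x)) (F (Function.update w i y)) := by
  unfold Psi at h ⊢
  induction h with
  | refl => exact Relation.ReflTransGen.refl
  | tail _ hbc ih =>
    obtain ⟨t, ht, h⟩ := hbc
    exact ih.tail ⟨t, ht, hF t _ _ (th_update' _ i h)⟩

/-- **Main lemma.** Different elements of `A` are separated by some `Psi K k` if for any two different
elements `a`, `b` of `A` there is a compatible operation `F` on `A` with `F(a, …, a) = a`,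
`F(b, …, b) = b` which is not a projection on `{a, b}`: for each place `i` there is a tuple `u` of
elements `a`, `b` with `F(u) ≠ u_i`. -/
theorem separated [Nontrivial ι] (lam : G →+ ℝ) (hlam : Function.Injective lam)
    (hK : ∀ i j, i ≠ j → ∀ g, g ∈ K i → g ∈ K j → g = 0)
    (hA : ∀ a b : {x // x ∈ A}, a ≠ b → ∃ (n : ℕ) (F : (Fin n → {x // x ∈ A}) → {x // x ∈ A}),
      Comp K F ∧ F (fun _ => a) = a ∧ F (fun _ => b) = b ∧
      ∀ i, ∃ u : Fin n → {x // x ∈ A}, (∀ j, u j = a ∨ u j = b) ∧ F u ≠ u i)
    (x y : {x // x ∈ A}) (hxy : ∀ k, Psi K k x y) : x = y := by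
  classical
  by_contra hne
  let C : Finset {x // x ∈ A} := univ.filter fun z => ∀ k, Psi K k x z
  have hC : ∀ z, z ∈ C ↔ ∀ k, Psi K k x z := fun z => by simp [C]
  have hxC : x ∈ C := (hC x).2 fun k => psi_refl k x
  have hyC : y ∈ C := (hC y).2 hxy
  obtain ⟨a, haC, ha⟩ := exists_min_image C (fun z => lam (z : G)) ⟨x, hxC⟩
  have hne' : (C.erase a).Nonempty := by
    by_cases h : x = a
    · exact ⟨y, mem_erase.2 ⟨fun h' => hne (h.trans h'.symm), hyC⟩⟩
    · exact ⟨x, mem_erase.2 ⟨h, hxC⟩⟩
  obtain ⟨b, hbC, hb⟩ := exists_min_image (C.erase a) (fun z => lam (z : G)) hne'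
  obtain ⟨hba, hbC'⟩ := mem_erase.1 hbC
  have hlt : lam (a : G) < lam (b : G) := by
    refine lt_of_le_of_ne (ha b hbC') fun h => hba ?_
    exact (Subtype.ext (hlam h)).symm
  obtain ⟨n, F, hF, hFa, hFb, hT⟩ := hA a b (Ne.symm hba)
  have hac : ∀ z ∈ C, ∀ s, Psi K s a z := fun z hz s =>
    psi_trans (psi_symm ((hC a).1 haC s)) ((hC z).1 hz s)
  have hup : ∀ i : Fin n, Function.update (fun _ => a) i a = (fun _ : Fin n => a) := by
    intro i
    funext j
    by_cases hj : j = i
    · subst hj; rw [Function.update_self]
    · rw [Function.update_of_ne hj]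
  -- the values of the unary polynomials are in `C`
  have hval : ∀ i : Fin n, F (Function.update (fun _ => a) i b) ∈ C := by
    intro i
    rw [hC]
    intro k
    have h1 := psi_map hF i (fun _ => a) (hac b hbC' k)
    rw [hup, hFa] at h1
    exact psi_trans ((hC a).1 haC k) h1
  have hform : ∀ w : Fin n → {x // x ∈ A}, (∀ j, w j = a ∨ w j = b) →
      (F w : G) - a = ∑ i, ((F (Function.update (fun _ => a) i (w i)) : G) - a) := by
    intro w hw
    have h1 := affine hK hF a w (fun j s => by
      rcases hw j with h | h
      · rw [h]; exact psi_refl s a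
      · rw [h]; exact hac b hbC' s) univ
    have h2 : rst a w univ = w := by
      funext j
      simp [rst]
    rw [h2, hFa] at h1
    exact h1
  set φ : Fin n → ℝ := fun i => lam (F (Function.update (fun _ => a) i b) : G) - lam (a : G) with hφ
  have hφ0 : ∀ i, F (Function.update (fun _ => a) i b) ≠ a → lam (b : G) - lam (a : G) ≤ φ i := by
    intro i hi
    have := hb _ (mem_erase.2 ⟨hi, hval i⟩)
    rw [hφ]
    simp only
    linarith
  have hφ1 : ∀ i, 0 ≤ φ i := by
    intro i
    have := ha _ (hval i)
    rw [hφ]
    simp only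
    linarith
  have hsum : ∑ i, φ i = lam (b : G) - lam (a : G) := by
    have h1 := hform (fun _ => b) (fun _ => Or.inr rfl)
    rw [hFb] at h1
    have h2 := congrArg lam h1
    rw [map_sub, map_sum] at h2
    rw [h2]
    exact sum_congr rfl fun i _ => by rw [map_sub]
  -- there is an essential place
  obtain ⟨i₀, hi₀⟩ : ∃ i₀, F (Function.update (fun _ => a) i₀ b) ≠ a := by
    by_contra hcon
    push Not at hcon
    have : ∑ i, φ i = 0 := sum_eq_zero fun i _ => by
      rw [hφ]
      simp only
      rw [hcon i, sub_self]
    linarith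
  have hothers : ∀ i, i ≠ i₀ → F (Function.update (fun _ => a) i b) = a := by
    intro i hi
    by_contra h
    have h1 : φ i + φ i₀ ≤ ∑ j, φ j := by
      rw [← sum_pair hi]
      exact sum_le_sum_of_subset_of_nonneg (subset_univ _) fun j _ _ => hφ1 j
    have h2 := hφ0 i h
    have h3 := hφ0 i₀ hi₀
    linarith
  have hval' : ∀ w : Fin n → {x // x ∈ A}, (∀ j, w j = a ∨ w j = b) →
      (F w : G) - a = (F (Function.update (fun _ => a) i₀ (w i₀)) : G) - a := by
    intro w hw
    rw [hform w hw]
    refine sum_eq_single i₀ (fun i _ hi => ?_) (fun h => absurd (mem_univ _) h)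
    rcases hw i with h | h
    · rw [h, hup, hFa, sub_self]
    · rw [h, hothers i hi, sub_self]
  have hb' : F (Function.update (fun _ => a) i₀ b) = b := by
    have h1 := hval' (fun _ => b) (fun _ => Or.inr rfl)
    rw [hFb] at h1
    exact (Subtype.ext (sub_left_injective h1)).symm
  obtain ⟨u, hu, hui⟩ := hT i₀
  refine hui ?_
  have h1 := hval' u hu
  rcases hu i₀ with h | h
  · rw [h, hup, hFa] at h1
    rw [h]
    exact Subtype.ext (sub_left_injective h1)
  · rw [h, hb'] at h1
    rw [h]
    exact Subtype.ext (sub_left_injective h1)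

end Chains

section Count

theorem count {α : Type} [Fintype α] [Nonempty α] (n : ℕ) {X : Fin (n + 1) → Type}
    [∀ i, DecidableEq (X i)] (f : ∀ i, α → X i) (ψ : Fin (n + 1) → Setoid α)
    (h1 : ∀ i k, i ≠ k → ∀ x y, f i x = f i y → ψ k x y)
    (h0 : ∀ x y, (∀ k, ψ k x y) → x = y) :
    Fintype.card α ^ n ≤ ∏ i, #((univ : Finset α).image (f i)) := by
  classical
  let Φ : α → ∀ k, Quotient (ψ k) := fun x k => Quotient.mk _ x
  have hΦ : ∀ x y k, Φ x k = Φ y k ↔ (ψ k) x y := fun x y k => Quotient.eq
  have hinj : Function.Injective Φ := fun x y h => h0 x y fun k => (hΦ x y k).1 (congrFun h k)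
  have hne : (univ.image Φ).Nonempty := by
    obtain ⟨x⟩ := ‹Nonempty α›
    exact ⟨_, mem_image_of_mem Φ (mem_univ x)⟩
  have h2 := loomisWhitney n (fun k => Quotient (ψ k)) (univ.image Φ) hne
  rw [card_image_of_injective _ hinj, card_univ] at h2
  refine h2.trans (prod_le_prod' fun i _ => ?_)
  rw [image_image]
  refine card_image_le_of_factor (univ : Finset α) (f i) _ ?_
  intro x _ y _ hxy
  funext k
  show Φ x (i.succAbove k) = Φ y (i.succAbove k)
  rw [hΦ]
  exact h1 i _ (Fin.succAbove_ne i k).symm x y hxy

end Count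

end Pool.Agent.Zk79.Taylor
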