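import Pool.Agent.Zk79.TaylorClone

/-!
# Rigid sets

A set which violates the inequality `|A|^κ ≤ ∏ |π_s(A)|` contains an irreducible and rigid one.
-/

set_option autoImplicit false

namespace Pool.Agent.Zk79.Taylor

open Finset Pool.Agent.R181.LW

section Rigid

variable {G : Type} [AddCommGroup G] {A : Finset G} {ι : Type} (K : ι → AddSubgroup G)

/-- every compatible idempotent operation on `A` is a projection -/
def Rigid (A : Finset G) : Prop :=
  ∀ (n : ℕ) (F : (Fin n → {x // x ∈ A}) → {x // x ∈ A}), Comp K F → (∀ x, F (fun _ => x) = x) →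
    ∃ i, ∀ u, F u = u i

/-- compatible binary operations -/
def Comp2 (g : {x // x ∈ A} → {x // x ∈ A} → {x // x ∈ A}) : Prop :=
  ∀ s x x' y y', Th K s x x' → Th K s y y' → Th K s (g x y) (g x' y')

variable {K}

theorem affine2 [Nontrivial ι] (hK : ∀ i j, i ≠ j → ∀ g, g ∈ K i → g ∈ K j → g = 0)
    (hirr : ∀ k, ∀ x y : {x // x ∈ A}, Psi K k x y)
    {g : {x // x ∈ A} → {x // x ∈ A} → {x // x ∈ A}} (hg : Comp2 K g) (a x y : {x // x ∈ A}) :
    (g x y : G) - g a a = (g x a - g a a) + (g a y - g a a) := by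
  have hF : Comp K (fun u : Fin 2 → {x // x ∈ A} => g (u 0) (u 1)) :=
    fun s u v h => hg s _ _ _ _ (h 0) (h 1)
  have h1 := affine hK hF a ![x, y] (fun j s => hirr s _ _) univ
  have h2 : rst a ![x, y] univ = ![x, y] := by
    funext j
    simp [rst]
  rw [h2, Fin.sum_univ_two] at h1
  simpa using h1

theorem exists_place [Nontrivial ι] (lam : G →+ ℝ)
    (hK : ∀ i j, i ≠ j → ∀ g, g ∈ K i → g ∈ K j → g = 0)
    (hirr : ∀ k, ∀ x y : {x // x ∈ A}, Psi K k x y) {a b : {x // x ∈ A}}
    (ha : ∀ z : {x // x ∈ A}, lam (a : G) ≤ lam (z : G)) (hlt : lam (a : G) < lam (b : G))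
    (hb : ∀ z : {x // x ∈ A}, z ≠ a → lam (b : G) ≤ lam (z : G))
    {n : ℕ} {F : (Fin n → {x // x ∈ A}) → {x // x ∈ A}} (hF : Comp K F)
    (hFi : ∀ x, F (fun _ => x) = x) :
    ∃ i₀, F (Function.update (fun _ => a) i₀ b) = b := by
  classical
  have hform : ∀ w : Fin n → {x // x ∈ A},
      (F w : G) - a = ∑ i, ((F (Function.update (fun _ => a) i (w i)) : G) - a) := by
    intro w
    have h1 := affine hK hF a w (fun j s => hirr s _ _) univ
    have h2 : rst a w univ = w := by
      funext j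
      simp [rst]
    rw [h2, hFi] at h1
    exact h1
  set φ : Fin n → ℝ := fun i => lam (F (Function.update (fun _ => a) i b) : G) - lam (a : G) with hφ
  have hφ0 : ∀ i, F (Function.update (fun _ => a) i b) ≠ a → lam (b : G) - lam (a : G) ≤ φ i := by
    intro i hi
    have := hb _ hi
    rw [hφ]
    simp only
    linarith
  have hφ1 : ∀ i, 0 ≤ φ i := by
    intro i
    have := ha (F (Function.update (fun _ => a) i b))
    rw [hφ]
    simp only
    linarith
  have hsum : ∑ i, φ i = lam (b : G) - lam (a : G) := by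
    have h1 := hform (fun _ => b)
    rw [hFi] at h1
    have h2 := congrArg lam h1
    rw [map_sub, map_sum] at h2
    rw [h2]
    exact sum_congr rfl fun i _ => by rw [map_sub]
  obtain ⟨i₀, hi₀⟩ : ∃ i₀, F (Function.update (fun _ => a) i₀ b) ≠ a := by
    by_contra hcon
    push Not at hcon
    have : ∑ i, φ i = 0 := sum_eq_zero fun i _ => by
      rw [hφ]
      simp only
      rw [hcon i, sub_self]
    linarith
  have hothers : ∀ i, i ≠ i₀ → F (Function.update (fun _ => a) i b) = a := by
    intro i hi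
    by_contra h
    have h1 : φ i + φ i₀ ≤ ∑ j, φ j := by
      rw [← sum_pair hi]
      exact sum_le_sum_of_subset_of_nonneg (subset_univ _) fun j _ _ => hφ1 j
    have h2 := hφ0 i h
    have h3 := hφ0 i₀ hi₀
    linarith
  refine ⟨i₀, ?_⟩
  have h1 := hform (fun _ => b)
  rw [hFi, sum_eq_single i₀ (fun i _ hi => by rw [hothers i hi, sub_self])
    (fun h => absurd (mem_univ _) h)] at h1
  exact (Subtype.ext (sub_left_injective h1)).symm

/-- An irreducible set with a compatible idempotent operation which is not a projection is a direct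
product of two smaller subsets. -/
theorem split_of_not_rigid [Nontrivial ι] (lam : G →+ ℝ) (hlam : Function.Injective lam)
    (hK : ∀ i j, i ≠ j → ∀ g, g ∈ K i → g ∈ K j → g = 0)
    (hirr : ∀ k, ∀ x y : {x // x ∈ A}, Psi K k x y) (h2 : 2 ≤ #A) (hr : ¬ Rigid K A) :
    ∃ e e' : {x // x ∈ A} → {x // x ∈ A},
      (∀ s x y, Th K s x y → Th K s (e x) (e y)) ∧ (∀ s x y, Th K s x y → Th K s (e' x) (e' y)) ∧
      (∀ x y, ∃ z, e z = e x ∧ e' z = e' y) ∧ (∀ x y, e x = e y → e' x = e' y → x = y) ∧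
      (∃ x, ∀ y, e y ≠ x) ∧ ∃ x, ∀ y, e' y ≠ x := by
  classical
  unfold Rigid at hr
  push Not at hr
  obtain ⟨n, F, hF, hFi, hFn⟩ := hr
  obtain ⟨x₀, y₀, hxy₀⟩ : ∃ x y : {x // x ∈ A}, x ≠ y := by
    obtain ⟨x, hx, y, hy, hxy⟩ := one_lt_card.1 (by omega : 1 < #A)
    exact ⟨⟨x, hx⟩, ⟨y, hy⟩, fun h => hxy (congrArg Subtype.val h)⟩
  obtain ⟨a, -, ha⟩ := exists_min_image (univ : Finset {x // x ∈ A}) (fun z => lam (z : G))
    ⟨x₀, mem_univ _⟩
  have hne' : ((univ : Finset {x // x ∈ A}).erase a).Nonempty := by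
    by_cases h : x₀ = a
    · exact ⟨y₀, mem_erase.2 ⟨fun h' => hxy₀ (h.trans h'.symm), mem_univ _⟩⟩
    · exact ⟨x₀, mem_erase.2 ⟨h, mem_univ _⟩⟩
  obtain ⟨b, hbC, hb⟩ := exists_min_image ((univ : Finset {x // x ∈ A}).erase a)
    (fun z => lam (z : G)) hne'
  have hba := (mem_erase.1 hbC).1
  have ha' : ∀ z : {x // x ∈ A}, lam (a : G) ≤ lam (z : G) := fun z => ha z (mem_univ z)
  have hb' : ∀ z : {x // x ∈ A}, z ≠ a → lam (b : G) ≤ lam (z : G) :=
    fun z hz => hb z (mem_erase.2 ⟨hz, mem_univ z⟩)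
  have hlt : lam (a : G) < lam (b : G) := by
    refine lt_of_le_of_ne (ha' b) fun h => hba ?_
    exact (Subtype.ext (hlam h)).symm
  obtain ⟨i₀, hi₀⟩ := exists_place lam hK hirr ha' hlt hb' hF hFi
  have hup : ∀ (i : Fin n) (x : {x // x ∈ A}), Function.update (fun _ => x) i x =
      (fun _ : Fin n => x) := by
    intro i x
    funext j
    by_cases hj : j = i
    · subst hj; rw [Function.update_self]
    · rw [Function.update_of_ne hj]
  let g₀ : {x // x ∈ A} → {x // x ∈ A} → {x // x ∈ A} :=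
    fun x y => F (Function.update (fun _ => y) i₀ x)
  have hg₀ : Comp2 K g₀ := by
    intro s x x' y y' hx hy
    refine hF s _ _ fun j => ?_
    by_cases hj : j = i₀
    · subst hj
      rw [Function.update_self, Function.update_self]
      exact hx
    · rw [Function.update_of_ne hj, Function.update_of_ne hj]
      exact hy
  -- the candidates
  let P : ({x // x ∈ A} → {x // x ∈ A} → {x // x ∈ A}) → Prop := fun g =>
    Comp2 K g ∧ (∀ x, g x x = x) ∧ g b a = b
  let V : ({x // x ∈ A} → {x // x ∈ A} → {x // x ∈ A}) → ℝ := fun g =>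
    ∑ x, lam (g x a : G)
  have hP₀ : P g₀ := ⟨hg₀, fun x => by
    show F (Function.update (fun _ => x) i₀ x) = x
    rw [hup, hFi], hi₀⟩
  obtain ⟨g, hgP, hgmin⟩ := exists_min_image
    ((univ : Finset ({x // x ∈ A} → {x // x ∈ A} → {x // x ∈ A})).filter P) V
    ⟨g₀, mem_filter.2 ⟨mem_univ _, hP₀⟩⟩
  obtain ⟨hg, hgi, hgb⟩ := (mem_filter.1 hgP).2
  have hmin : ∀ g', P g' → V g ≤ V g' := fun g' h => hgmin g' (mem_filter.2 ⟨mem_univ _, h⟩)
  -- every value decreases
  have hdec : ∀ g', Comp2 K g' → (∀ x, g' x x = x) → ∀ x : {x // x ∈ A},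
      (x : G) - a = (g' x a - a) + (g' a x - a) := by
    intro g' hg' hgi' x
    have h := affine2 hK hirr hg' a x x
    rwa [hgi', hgi'] at h
  have hle : ∀ g', Comp2 K g' → (∀ x, g' x x = x) → ∀ x : {x // x ∈ A},
      lam (g' x a : G) ≤ lam (x : G) := by
    intro g' hg' hgi' x
    have h := congrArg lam (hdec g' hg' hgi' x)
    rw [map_add, map_sub, map_sub, map_sub] at h
    have := ha' (g' a x)
    linarith
  have hee : ∀ x, g (g x a) a = g x a := by
    let g' : {x // x ∈ A} → {x // x ∈ A} → {x // x ∈ A} := fun x y => g (g x y) y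
    have hP' : P g' := by
      refine ⟨fun s x x' y y' hx hy => hg s _ _ _ _ (hg s _ _ _ _ hx hy) hy, fun x => ?_, ?_⟩
      · show g (g x x) x = x
        rw [hgi, hgi]
      · show g (g b a) a = b
        rw [hgb, hgb]
    have h1 := hmin g' hP'
    have h2 : ∀ x ∈ (univ : Finset {x // x ∈ A}), lam (g' x a : G) ≤ lam (g x a : G) :=
      fun x _ => hle g hg hgi (g x a)
    have h3 := (sum_eq_sum_iff_of_le h2).1 (le_antisymm (sum_le_sum h2) h1)
    intro x
    exact Subtype.ext (hlam (h3 x (mem_univ x)))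
  have haa : g a a = a := hgi a
  have hcomp : Comp2 K (fun x y => g (g x y) a) :=
    fun s x x' y y' hx hy => hg s _ _ _ _ (hg s _ _ _ _ hx hy) (th_refl s a)
  have hker : ∀ y, g (g a y) a = a := by
    intro y
    have h := affine2 hK hirr hcomp a y y
    simp only [hgi, haa] at h
    rw [hee] at h
    have h' : (g (g a y) a : G) - a = 0 := by
      have : (g y a : G) - a = (g y a - a) + (g (g a y) a - a) := h
      exact (add_eq_left.1 this.symm)
    exact Subtype.ext (sub_eq_zero.1 h')
  have he : ∀ x y, g (g x y) a = g x a := by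
    intro x y
    have h := affine2 hK hirr hcomp a x y
    simp only [haa] at h
    rw [hee, hker, sub_self, add_zero] at h
    exact Subtype.ext (sub_left_injective h)
  have he' : ∀ x y, g a (g x y) = g a y := by
    intro x y
    have h1 := hdec g hg hgi (g x y)
    have h2 := affine2 hK hirr hg a x y
    rw [haa] at h2
    rw [h2, he] at h1
    have h3 := add_left_cancel h1
    exact (Subtype.ext (sub_left_injective h3)).symm
  refine ⟨fun x => g x a, fun y => g a y, fun s x y h => hg s _ _ _ _ h (th_refl s a),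
    fun s x y h => hg s _ _ _ _ (th_refl s a) h, fun x y => ⟨g x y, he x y, he' x y⟩, ?_, ?_, ?_⟩
  · intro x y h1 h2
    have h3 := hdec g hg hgi x
    have h4 := hdec g hg hgi y
    have h1' : g x a = g y a := h1
    have h2' : g a x = g a y := h2
    rw [h1', h2', ← h4] at h3
    exact Subtype.ext (sub_left_injective h3)
  · -- `e` is not surjective
    by_contra hcon
    push Not at hcon
    have hid : ∀ x, g x a = x := by
      intro x
      obtain ⟨y, hy⟩ := hcon x
      have hy' : g y a = x := hy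
      rw [← hy', hee]
    have h1 : V g = ∑ x : {x // x ∈ A}, lam (x : G) := sum_congr rfl fun x _ => by rw [hid]
    have h2 : ∀ x ∈ (univ : Finset {x // x ∈ A}), lam (g₀ x a : G) ≤ lam (x : G) :=
      fun x _ => hle g₀ hg₀ hP₀.2.1 x
    have h3 := hmin g₀ hP₀
    rw [h1] at h3
    have h4 := (sum_eq_sum_iff_of_le h2).1 (le_antisymm (sum_le_sum h2) h3)
    have h5 : ∀ x, F (Function.update (fun _ => a) i₀ x) = x :=
      fun x => Subtype.ext (hlam (h4 x (mem_univ x)))
    have hform : ∀ w : Fin n → {x // x ∈ A},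
        (F w : G) - a = ∑ i, ((F (Function.update (fun _ => a) i (w i)) : G) - a) := by
      intro w
      have h1 := affine hK hF a w (fun j s => hirr s _ _) univ
      have h2 : rst a w univ = w := by
        funext j
        simp [rst]
      rw [h2, hFi] at h1
      exact h1
    have h6 : ∀ i, i ≠ i₀ → ∀ x, F (Function.update (fun _ => a) i x) = a := by
      intro i hi x
      have h7 := hform (fun _ => x)
      rw [hFi, ← add_sum_erase _ _ (mem_univ i₀), h5] at h7
      have h8 : ∑ i ∈ univ.erase i₀, ((F (Function.update (fun _ => a) i x) : G) - a) = 0 :=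
        add_eq_left.1 h7.symm
      have h9 := congrArg lam h8
      rw [map_sum, map_zero] at h9
      have h10 := (sum_eq_zero_iff_of_nonneg (fun j _ => by
        rw [map_sub, sub_nonneg]
        exact ha' _)).1 h9 i (mem_erase.2 ⟨hi, mem_univ i⟩)
      rw [map_sub, sub_eq_zero] at h10
      exact Subtype.ext (hlam h10)
    obtain ⟨u, hu⟩ := hFn i₀
    refine hu ?_
    have h7 := hform u
    rw [sum_eq_single i₀ (fun i _ hi => by rw [h6 i hi, sub_self])
      (fun h => absurd (mem_univ _) h), h5] at h7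
    exact Subtype.ext (sub_left_injective h7)
  · -- `e'` is not surjective
    by_contra hcon
    push Not at hcon
    have hid : ∀ x, g a x = x := by
      intro x
      obtain ⟨y, hy⟩ := hcon x
      have hy' : g a y = x := hy
      rw [← hy', he']
    have h1 := hdec g hg hgi b
    rw [hid, hgb] at h1
    have h2 : (b : G) - a = 0 := add_eq_left.1 h1.symm
    exact hba (Subtype.ext (sub_eq_zero.1 h2))

end Rigid

section Bound

variable {G : Type} [AddCommGroup G] {H : Type} [AddCommGroup H] [DecidableEq H] [DecidableEq G]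
  {ι : Type} [Fintype ι] [DecidableEq ι]

/-- the inequality with the exponent `κ` -/
def Bnd (p : ι → G →+ H) (κ : ℝ) (B : Finset G) : Prop :=
  (#B : ℝ) ^ κ ≤ ∏ s, (#(B.image (p s)) : ℝ)

theorem bnd_join (p : ι → G →+ H) {κ : ℝ} (hκ : 0 < κ) (hκ' : κ ≤ (Fintype.card ι : ℝ) - 1) (k : ι)
    (B C : Finset G) (hBC : Disjoint B C)
    (hd : ∀ s, s ≠ k → Disjoint (B.image (p s)) (C.image (p s))) (hB : Bnd p κ B)
    (hC : Bnd p κ C) : Bnd p κ (B ∪ C) := by
  unfold Bnd at *
  set t : Finset ι := univ.erase k with ht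
  have hct : #t = Fintype.card ι - 1 := by rw [ht, card_erase_of_mem (mem_univ k), card_univ]
  have h1 : 1 ≤ Fintype.card ι := Fintype.card_pos_iff.2 ⟨k⟩
  have hct' : (#t : ℝ) = (Fintype.card ι : ℝ) - 1 := by
    rw [hct, Nat.cast_sub h1, Nat.cast_one]
  have ht0 : (0 : ℝ) < #t := by rw [hct']; linarith
  have htne : t.Nonempty := card_pos.1 (by exact_mod_cast ht0)
  have htn : #t ≠ 0 := (card_pos.2 htne).ne'
  let X : Bool → Finset G := fun o => if o then B else C
  have hX : ∀ o, (#(X o) : ℝ) ^ κ ≤ ∏ s, (#((X o).image (p s)) : ℝ) := by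
    intro o
    cases o
    · exact hC
    · exact hB
  have hXs : ∀ o, X o ⊆ B ∪ C := by
    intro o
    cases o
    · exact subset_union_right
    · exact subset_union_left
  have hpow : ∀ x : ℝ, 0 ≤ x → (x ^ (κ / #t)) ^ #t = x ^ κ := by
    intro x hx
    rw [← Real.rpow_natCast, ← Real.rpow_mul hx, div_mul_cancel₀ _ ht0.ne']
  have hmain := holder (univ : Finset Bool) t htne (fun o => (#(X o) : ℝ) ^ (κ / #t))
    (fun s o => (#((X o).image (p s)) : ℝ)) (#((B ∪ C).image (p k)) : ℝ) (Nat.cast_nonneg _)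
    (fun _ _ => Real.rpow_nonneg (Nat.cast_nonneg _) _) (fun _ _ _ _ => Nat.cast_nonneg _)
    (fun o _ => by
      rw [hpow _ (Nat.cast_nonneg _)]
      refine (hX o).trans ?_
      rw [← mul_prod_erase univ _ (mem_univ k)]
      refine mul_le_mul_of_nonneg_right ?_ (prod_nonneg fun _ _ => Nat.cast_nonneg _)
      exact_mod_cast card_le_card (image_subset_image (hXs o)))
  have h2 : (#(B ∪ C) : ℝ) ^ κ ≤ (∑ o : Bool, (#(X o) : ℝ) ^ (κ / #t)) ^ #t := by
    rw [← hpow _ (Nat.cast_nonneg _), card_union_of_disjoint hBC]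
    refine pow_le_pow_left₀ (Real.rpow_nonneg (Nat.cast_nonneg _) _) ?_ _
    rw [Fintype.sum_bool]
    push_cast
    refine Real.rpow_add_le_add_rpow (Nat.cast_nonneg _) (Nat.cast_nonneg _) (by positivity) ?_
    rw [div_le_one ht0, hct']
    exact hκ'
  refine h2.trans (hmain.trans ?_)
  rw [← mul_prod_erase univ _ (mem_univ k)]
  refine mul_le_mul_of_nonneg_left (le_of_eq ?_) (Nat.cast_nonneg _)
  refine prod_congr rfl fun s hs => ?_
  rw [Fintype.sum_bool, image_union, card_union_of_disjoint (hd s (ne_of_mem_erase hs))]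
  push_cast
  rfl

theorem bnd_split (p : ι → G →+ H) {κ : ℝ} {B : Finset G}
    (e e' : {x // x ∈ B} → {x // x ∈ B})
    (h1 : ∀ s (x y : {x // x ∈ B}), p s x = p s y → p s (e x) = p s (e y))
    (h2 : ∀ s (x y : {x // x ∈ B}), p s x = p s y → p s (e' x) = p s (e' y))
    (h3 : ∀ x y, ∃ z, e z = e x ∧ e' z = e' y) (h4 : ∀ x y, e x = e y → e' x = e' y → x = y)
    (hb1 : Bnd p κ (univ.image fun x => (e x : G)))
    (hb2 : Bnd p κ (univ.image fun x => (e' x : G))) : Bnd p κ B := by
  unfold Bnd at *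
  have hcard : #B = #(univ.image fun x => (e x : G)) * #(univ.image fun x => (e' x : G)) := by
    rw [← card_product]
    have h5 : (univ.image fun x => (e x : G)) ×ˢ (univ.image fun x => (e' x : G)) =
        univ.image fun x => ((e x : G), (e' x : G)) := by
      ext ⟨y, z⟩
      simp only [mem_product, mem_image, mem_univ, true_and, Prod.mk.injEq]
      constructor
      · rintro ⟨⟨x, rfl⟩, ⟨x', rfl⟩⟩
        obtain ⟨w, hw, hw'⟩ := h3 x x'
        exact ⟨w, by rw [hw], by rw [hw']⟩
      · rintro ⟨x, rfl, rfl⟩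
        exact ⟨⟨x, rfl⟩, ⟨x, rfl⟩⟩
    rw [h5, card_image_of_injective, card_univ, Fintype.card_coe]
    intro x y hxy
    obtain ⟨h6, h7⟩ := Prod.ext_iff.1 hxy
    exact h4 x y (Subtype.ext h6) (Subtype.ext h7)
  have hproj : ∀ s, #((univ.image fun x => (e x : G)).image (p s)) *
      #((univ.image fun x => (e' x : G)).image (p s)) ≤ #(B.image (p s)) := by
    intro s
    rw [← card_product]
    have h5 : ((univ.image fun x => (e x : G)).image (p s)) ×ˢ
        ((univ.image fun x => (e' x : G)).image (p s)) =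
        (univ : Finset {x // x ∈ B}).image fun x => (p s (e x), p s (e' x)) := by
      ext ⟨y, z⟩
      simp only [mem_product, mem_image, mem_univ, true_and, Prod.mk.injEq,
        exists_exists_eq_and]
      constructor
      · rintro ⟨⟨x, rfl⟩, ⟨x', rfl⟩⟩
        obtain ⟨w, hw, hw'⟩ := h3 x x'
        exact ⟨w, by rw [hw], by rw [hw']⟩
      · rintro ⟨x, rfl, rfl⟩
        exact ⟨⟨x, rfl⟩, ⟨x, rfl⟩⟩
    have h6 : B.image (p s) =
        (univ : Finset {x // x ∈ B}).image (fun x : {x // x ∈ B} => p s x.1) := by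
      ext y
      simp
    rw [h5, h6]
    refine card_image_le_of_factor univ _ _ ?_
    intro x _ y _ hxy
    exact Prod.ext (h1 s x y hxy) (h2 s x y hxy)
  rw [hcard, Nat.cast_mul, Real.mul_rpow (Nat.cast_nonneg _) (Nat.cast_nonneg _)]
  refine (mul_le_mul hb1 hb2 (Real.rpow_nonneg (Nat.cast_nonneg _) _)
    (prod_nonneg fun _ _ => Nat.cast_nonneg _)).trans ?_
  rw [← prod_mul_distrib]
  refine prod_le_prod (fun _ _ => by positivity) fun s _ => ?_
  exact_mod_cast hproj s

theorem th_iff' (p : ι → G →+ H) {A : Finset G} (s : ι) (x y : {x // x ∈ A}) :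
    Th (fun s => (p s).ker) s x y ↔ p s x = p s y := by
  unfold Th
  rw [AddMonoidHom.mem_ker, map_sub, sub_eq_zero]

/-- **Theorem.** A set which violates the inequality contains an irreducible and rigid set which
violates it. -/
theorem exists_rigid [Nontrivial ι] (p : ι → G →+ H) (lam : G →+ ℝ) (hlam : Function.Injective lam)
    (hp : ∀ i j, i ≠ j → ∀ g, p i g = 0 → p j g = 0 → g = 0) {κ : ℝ} (hκ : 0 < κ)
    (hκ' : κ ≤ (Fintype.card ι : ℝ) - 1) (A : Finset G) (hA : ¬ Bnd p κ A) :
    ∃ B ⊆ A, 2 ≤ #B ∧ ¬ Bnd p κ B ∧ (∀ k, ∀ x y : {x // x ∈ B}, Psi (fun s => (p s).ker) k x y) ∧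
      Rigid (fun s => (p s).ker) B := by
  classical
  induction A using Finset.strongInduction with
  | H A ih =>
    by_cases hsub : ∃ C, C ⊂ A ∧ ¬ Bnd p κ C
    · obtain ⟨C, hCA, hC⟩ := hsub
      obtain ⟨B, hBC, h⟩ := ih C hCA hC
      exact ⟨B, hBC.trans hCA.subset, h⟩
    · push Not at hsub
      have h2 : 2 ≤ #A := by
        by_contra hcon
        push Not at hcon
        refine hA ?_
        unfold Bnd
        rcases Nat.lt_succ_iff_lt_or_eq.1 hcon with h | h
        · have : #A = 0 := by omega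
          rw [this, Nat.cast_zero, Real.zero_rpow hκ.ne']
          exact prod_nonneg fun _ _ => Nat.cast_nonneg _
        · rw [h, Nat.cast_one, Real.one_rpow]
          refine le_of_eq (Eq.symm (prod_eq_one fun s _ => ?_))
          obtain ⟨x, rfl⟩ := card_eq_one.1 h
          rw [image_singleton, card_singleton, Nat.cast_one]
      have hK : ∀ i j, i ≠ j → ∀ g, g ∈ (p i).ker → g ∈ (p j).ker → g = 0 :=
        fun i j hij g h1 h2 => hp i j hij g ((AddMonoidHom.mem_ker).1 h1)
          ((AddMonoidHom.mem_ker).1 h2)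
      have hirr : ∀ k, ∀ x y : {x // x ∈ A}, Psi (fun s => (p s).ker) k x y := by
        by_contra hcon
        push Not at hcon
        obtain ⟨k, x, y, hxy⟩ := hcon
        let B : Finset G := A.filter fun z => ∃ h : z ∈ A, Psi (fun s => (p s).ker) k x ⟨z, h⟩
        have hBA : B ⊆ A := filter_subset _ _
        have hxB : (x : G) ∈ B := mem_filter.2 ⟨x.2, x.2, psi_refl k x⟩
        have hyB : (y : G) ∉ B := by
          intro h
          obtain ⟨-, h1, h2⟩ := mem_filter.1 h
          exact hxy h2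
        have hB : B ⊂ A := ⟨hBA, fun h => hyB (h y.2)⟩
        have hC : A \ B ⊂ A := ⟨sdiff_subset, fun h => (mem_sdiff.1 (h x.2)).2 hxB⟩
        have hu : B ∪ (A \ B) = A := union_sdiff_of_subset hBA
        refine hA ?_
        rw [← hu]
        refine bnd_join p hκ hκ' k B (A \ B) disjoint_sdiff ?_ (hsub _ hB) (hsub _ hC)
        intro s hs
        rw [disjoint_left]
        intro v hv hv'
        obtain ⟨z, hz, rfl⟩ := mem_image.1 hv
        obtain ⟨w, hw, hwz⟩ := mem_image.1 hv'
        obtain ⟨hzA, _, hz'⟩ := mem_filter.1 hz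
        obtain ⟨hwA, hwB⟩ := mem_sdiff.1 hw
        refine hwB (mem_filter.2 ⟨hwA, hwA, psi_trans hz' ?_⟩)
        exact psi_of_th hs ((th_iff' p s ⟨z, hzA⟩ ⟨w, hwA⟩).2 hwz.symm)
      refine ⟨A, Subset.rfl, h2, hA, hirr, ?_⟩
      by_contra hr
      obtain ⟨e, e', h1, h1', h3, h4, ⟨x, hx⟩, ⟨x', hx'⟩⟩ :=
        split_of_not_rigid lam hlam hK hirr h2 hr
      refine hA (bnd_split p e e' ?_ ?_ h3 h4 (hsub _ ⟨?_, ?_⟩) (hsub _ ⟨?_, ?_⟩))
      · intro s x y hxy
        exact (th_iff' p s _ _).1 (h1 s x y ((th_iff' p s _ _).2 hxy))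
      · intro s x y hxy
        exact (th_iff' p s _ _).1 (h1' s x y ((th_iff' p s _ _).2 hxy))
      · intro z hz
        obtain ⟨w, -, rfl⟩ := mem_image.1 hz
        exact (e w).2
      · intro h
        obtain ⟨w, -, hw⟩ := mem_image.1 (h x.2)
        exact hx w (Subtype.ext hw)
      · intro z hz
        obtain ⟨w, -, rfl⟩ := mem_image.1 hz
        exact (e' w).2
      · intro h
        obtain ⟨w, -, hw⟩ := mem_image.1 (h x'.2)
        exact hx' w (Subtype.ext hw)

end Bound

end Pool.Agent.Zk79.Taylor
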